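import Mathlib
import Pool.Agent.Work.MP_af11aa_nt.W.FixA

/-!
W2: the sub-Weyl bound for moduli without prime factors above `t ^ (4 / 25)`. The chunks of the
modulus are at most `t ^ (4 / 25)`, there are four chunks with Kloosterman factors and seven other
ones, and a factor `r0` between `t ^ (1 / 30)` and `t ^ (4 / 25)`.
-/

set_option autoImplicit false

namespace Pool.Agent.Work.MP_af11aa_nt.W2

open Finset Pool.Agent.Work.MP_af11aa_nt.W

noncomputable section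

/-- the small exponent. -/
def eta : ℝ := 7 / 10 ^ 9

theorem fixA_small : ∃ C : ℝ, 0 < C ∧ ∀ (t : ℝ) (X a D r0 : ℕ) (r : Fin 11 → ℕ)
    (Φ : Fin 11 → ℤ → ℂ) (θ : ℤ) (β x x' : ℕ),
    1 ≤ t → 0 < a → 0 < D → x ≤ x' → x' * a ≤ X → t ^ (1 / 3 - 2 * eta) ≤ X →
    (D : ℝ) ≤ t ^ (14 * eta) → (∀ j, (r j : ℝ) ≤ t ^ (4 / 25 : ℝ)) →
    t ^ (1 / 30 : ℝ) ≤ r0 → (r0 : ℝ) ≤ t ^ (4 / 25 : ℝ) → Odd r0 → Squarefree r0 →
    r0.Coprime a → r0.Coprime D → (∀ j, r0.Coprime (r j)) →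
    (∀ j n, Φ j (n + r j) = Φ j n) → (∀ j n, ‖Φ j n‖ ≤ 1) →
    (a : ℝ) ≤ t ^ (1 / 15 : ℝ) →
    ‖∑ b ∈ (Ioc x x').filter (fun b ↦ b ≡ β [MOD D]), (∏ j, Φ j b) *
      (eInv a θ b * ((jacobiSym b r0 : ℤ) : ℂ))‖ ≤
      C * ((X : ℝ) / (a * D)) * t ^ (-(3 / 10 ^ 7) : ℝ) := by
  obtain ⟨C, hC, hreg⟩ := regime_one 11 (1 / 10 ^ 9) (by norm_num)
  refine ⟨C * 8, by positivity, ?_⟩
  intro t X a D r0 r Φ θ β x x' ht ha hD hx hx' hX hDt hr hr01 hr02 hodd hsq hra hrD hrr hper hΦ hat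
  have ha' : (0 : ℝ) < a := by exact_mod_cast ha
  have hD' : (0 : ℝ) < D := by exact_mod_cast hD
  obtain ⟨u, v, huv, hsum⟩ := class_interval D hD β x x' hx
  rw [hsum (fun b ↦ (∏ j, Φ j b) * (eInv a θ b * ((jacobiSym b r0 : ℤ) : ℂ)))]
  set N : ℕ := X / (a * D) + 1 with hN
  have huN : v - u ≤ N := by
    refine huv.trans ?_
    have h1 : (x' - x) / D ≤ X / (a * D) := by
      rw [← Nat.div_div_eq_div_mul]
      apply Nat.div_le_div_right
      calc x' - x ≤ x' := Nat.sub_le _ _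
        _ ≤ X / a := (Nat.le_div_iff_mul_le ha).2 hx'
    have h2 : (x' - x) / D + 1 ≤ N := by omega
    exact_mod_cast h2
  -- the length
  have hlen : t ^ (4 / 15 - 16 * eta) ≤ (X : ℝ) / (a * D) := by
    rw [le_div_iff₀ (by positivity)]
    calc t ^ (4 / 15 - 16 * eta) * (a * D)
        ≤ t ^ (4 / 15 - 16 * eta) * (t ^ (1 / 15 : ℝ) * t ^ (14 * eta)) := by
          have := rp_pos ht (4 / 15 - 16 * eta)
          gcongr
      _ = t ^ (1 / 3 - 2 * eta) := by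
          rw [rp_mul ht, rp_mul ht]; congr 1; ring
      _ ≤ X := hX
  have he : (0 : ℝ) < eta := by unfold eta; positivity
  have he' : eta = 7 / 10 ^ 9 := rfl
  obtain ⟨hN1, hN2⟩ := N_bounds ht ha hD (by rw [he']; norm_num) hlen
  rw [← hN] at hN1 hN2
  have hNpos : (0 : ℝ) < N := lt_of_lt_of_le (rp_pos ht _) hN1
  -- the number of shifts
  set R : ℝ := t ^ (4 / 25 : ℝ) with hR
  have hRpos : 0 < R := rp_pos ht _
  have hNR : 1 ≤ (N : ℝ) / R := by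
    rw [le_div_iff₀ hRpos, one_mul]
    exact (rp_le ht (by rw [he']; norm_num)).trans hN1
  obtain ⟨hH1, hH2, hH3⟩ := floor_half hNR
  set H : ℕ := ⌊(N : ℝ) / R⌋₊ with hH
  have hHpos : (0 : ℝ) < H := by exact_mod_cast hH2
  have hrH : ∀ j, r j * H ≤ N := by
    intro j
    have h1 : (r j : ℝ) * H ≤ N := by
      calc (r j : ℝ) * H ≤ R * (N / R) := by
            have := hr j
            gcongr
        _ = N := by field_simp
    exact_mod_cast h1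
  have hmain := hreg a D N H r0 r (fun j n ↦ Φ j (β + D * n)) 1
    (fun n ↦ eInv a θ (β + D * n)) β u v ha (Nat.succ_pos _) (by omega) hodd hsq hra hrD hrr hrH
    (fun j n ↦ by
      have h1 : (β : ℤ) + D * (n + r j) = (β + D * n) + D * r j := by ring
      rw [h1, periodic_nat (hper j)])
    (fun j n ↦ hΦ j _) zero_le_one
    (fun n ↦ by
      apply eInv_congr
      refine Int.modEq_iff_dvd.2 ⟨-D, by ring⟩)
    (fun n ↦ norm_eInv_le _ _ _) huN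
  refine (le_trans (le_of_eq ?_) hmain).trans ?_
  · rfl
  -- numerics
  have hz : (1 : ℝ) / H + 1 / Real.sqrt r0 + a * r0 / N ≤ 4 * t ^ (-(1 / 60) : ℝ) := by
    have h1 : (1 : ℝ) / H ≤ 2 * t ^ (-(1 / 60) : ℝ) := by
      calc (1 : ℝ) / H ≤ 1 / ((N : ℝ) / R / 2) := by
            apply one_div_le_one_div_of_le _ hH1
            positivity
        _ = 2 * (R / N) := by field_simp
        _ ≤ 2 * (R / t ^ (4 / 15 - 16 * eta)) := by
            have := rp_pos ht (4 / 15 - 16 * eta)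
            gcongr
        _ = 2 * t ^ (4 / 25 - (4 / 15 - 16 * eta)) := by rw [hR, rp_div ht]
        _ ≤ 2 * t ^ (-(1 / 60) : ℝ) := by
            have := rp_le ht (a := 4 / 25 - (4 / 15 - 16 * eta)) (b := -(1 / 60))
              (by rw [he']; norm_num)
            linarith
    have h2 : (1 : ℝ) / Real.sqrt r0 ≤ t ^ (-(1 / 60) : ℝ) := by
      have h3 : t ^ (1 / 60 : ℝ) ≤ Real.sqrt r0 := by
        apply Real.le_sqrt_of_sq_le
        rw [← Real.rpow_natCast, ← Real.rpow_mul (by linarith)]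
        norm_num
        exact hr01
      rw [Real.rpow_neg (by linarith), ← one_div]
      exact one_div_le_one_div_of_le (rp_pos ht _) h3
    have h3 : (a : ℝ) * r0 / N ≤ t ^ (-(1 / 60) : ℝ) := by
      calc (a : ℝ) * r0 / N ≤ t ^ (1 / 15 : ℝ) * t ^ (4 / 25 : ℝ) / t ^ (4 / 15 - 16 * eta) := by
            have := rp_pos ht (4 / 15 - 16 * eta)
            have := rp_pos ht (1 / 15)
            gcongr
        _ = t ^ (1 / 15 + (4 / 25) - (4 / 15 - 16 * eta)) := by rw [rp_mul ht, rp_div ht]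
        _ ≤ _ := rp_le ht (by rw [he']; norm_num)
    linarith
  have hz0 : (0 : ℝ) ≤ 1 / H + 1 / Real.sqrt r0 + a * r0 / N := by positivity
  have hpow := pow_small ht (by norm_num : (1 : ℝ) ≤ 4) 11 hz0 hz
  have hr0t : (r0 : ℝ) ^ (1 / 10 ^ 9 : ℝ) ≤ t ^ (1 / 10 ^ 9 : ℝ) := by
    apply Real.rpow_le_rpow (by positivity) _ (by norm_num)
    calc (r0 : ℝ) ≤ t ^ (4 / 25 : ℝ) := hr02
      _ ≤ t ^ (1 : ℝ) := rp_le ht (by norm_num)
      _ = t := Real.rpow_one t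
  have p2 := rp_pos ht (1 / 10 ^ 9)
  have p3 := rp_pos ht (-(1 / 60) * (1 / 2 : ℝ) ^ 11)
  have hXa : 0 ≤ (X : ℝ) / (a * D) := by positivity
  calc C * 1 ^ 11 * (r0 : ℝ) ^ (1 / 10 ^ 9 : ℝ) * N *
        (1 / H + 1 / Real.sqrt r0 + a * r0 / N) ^ ((1 / 2 : ℝ) ^ 11)
      ≤ C * 1 ^ 11 * t ^ (1 / 10 ^ 9 : ℝ) * (2 * ((X : ℝ) / (a * D))) *
        (4 * t ^ (-(1 / 60) * (1 / 2 : ℝ) ^ 11)) := by
        gcongr
    _ = C * 8 * ((X : ℝ) / (a * D)) *
        (t ^ (1 / 10 ^ 9 : ℝ) * t ^ (-(1 / 60) * (1 / 2 : ℝ) ^ 11)) := by ring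
    _ = C * 8 * ((X : ℝ) / (a * D)) *
        t ^ (1 / 10 ^ 9 + -(1 / 60) * (1 / 2 : ℝ) ^ 11) := by
        rw [rp_mul ht]
    _ ≤ C * 8 * ((X : ℝ) / (a * D)) * t ^ (-(3 / 10 ^ 7) : ℝ) := by
        refine mul_le_mul_of_nonneg_left (rp_le ht ?_) (by positivity)
        norm_num

theorem fixA_large : ∃ C : ℝ, 0 < C ∧ ∀ (t : ℝ) (X a D r0 : ℕ) (r : Fin 11 → ℕ)
    (Φ : Fin 11 → ℤ → ℂ) (θ : ℤ) (β x x' : ℕ),
    1 ≤ t → 0 < a → 0 < D → x ≤ x' → x' * a ≤ X → t ^ (1 / 3 - 2 * eta) ≤ X →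
    (X : ℝ) ≤ t ^ (1 / 3 + 4 * eta) → a * a ≤ X →
    (D : ℝ) ≤ t ^ (14 * eta) → (∀ j, (r j : ℝ) ≤ t ^ (4 / 25 : ℝ)) →
    (r0 : ℝ) ≤ t ^ (4 / 25 : ℝ) → r0.Coprime a → (∀ j, (r j).Coprime a) → D.Coprime a →
    IsCoprime θ (a : ℤ) →
    (∀ j n, Φ j (n + r j) = Φ j n) → (∀ j n, ‖Φ j n‖ ≤ 1) →
    t ^ (1 / 15 : ℝ) ≤ a → (sfp a : ℝ) ≤ t ^ (1 / 24 : ℝ) →
    ‖∑ b ∈ (Ioc x x').filter (fun b ↦ b ≡ β [MOD D]), (∏ j, Φ j b) *
      (eInv a θ b * ((jacobiSym b r0 : ℤ) : ℂ))‖ ≤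
      C * ((X : ℝ) / (a * D)) * t ^ (-(3 / 10 ^ 7) : ℝ) := by
  obtain ⟨C, hC, hreg⟩ := regime_two 12 (1 / 10 ^ 9) (by norm_num)
  refine ⟨C * 14, by positivity, ?_⟩
  intro t X a D r0 r Φ θ β x x' ht ha hD hx hx' hX hX2 haX hDt hr hr02 hra hrja hDa hθ hper hΦ
    hat hsf
  have ha' : (0 : ℝ) < a := by exact_mod_cast ha
  have hD' : (0 : ℝ) < D := by exact_mod_cast hD
  have he : (0 : ℝ) < eta := by unfold eta; positivity
  have he' : eta = 7 / 10 ^ 9 := rfl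
  obtain ⟨u, v, huv, hsum⟩ := class_interval D hD β x x' hx
  rw [hsum (fun b ↦ (∏ j, Φ j b) * (eInv a θ b * ((jacobiSym b r0 : ℤ) : ℂ)))]
  set N : ℕ := X / (a * D) + 1 with hN
  have huN : v - u ≤ N := by
    refine huv.trans ?_
    have h1 : (x' - x) / D ≤ X / (a * D) := by
      rw [← Nat.div_div_eq_div_mul]
      apply Nat.div_le_div_right
      calc x' - x ≤ x' := Nat.sub_le _ _
        _ ≤ X / a := (Nat.le_div_iff_mul_le ha).2 hx'
    have h2 : (x' - x) / D + 1 ≤ N := by omega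
    exact_mod_cast h2
  have hXpos : (0 : ℝ) < X := lt_of_lt_of_le (rp_pos ht _) hX
  have haX' : (a : ℝ) * a ≤ X := by exact_mod_cast haX
  -- the length
  have hlen : t ^ (1 / 6 - 15 * eta) ≤ (X : ℝ) / (a * D) := by
    have h1 : t ^ (1 / 6 - eta) ≤ (X : ℝ) / a := by
      rw [le_div_iff₀ ha']
      have h2 : t ^ (1 / 6 - eta) * t ^ (1 / 6 - eta) ≤ X := by
        rw [rp_mul ht]
        refine le_trans (le_of_eq ?_) hX
        congr 1; ring
      have h3 := rp_pos ht (1 / 6 - eta)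
      by_contra hcon
      push Not at hcon
      rcases le_total (t ^ (1 / 6 - eta)) (a : ℝ) with h4 | h4
      · nlinarith
      · nlinarith
    rw [← div_div, le_div_iff₀ hD']
    calc t ^ (1 / 6 - 15 * eta) * D ≤ t ^ (1 / 6 - 15 * eta) * t ^ (14 * eta) := by
          have := rp_pos ht (1 / 6 - 15 * eta)
          gcongr
      _ = t ^ (1 / 6 - eta) := by rw [rp_mul ht]; congr 1; ring
      _ ≤ _ := h1
  obtain ⟨hN1, hN2⟩ := N_bounds ht ha hD (by rw [he']; norm_num) hlen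
  rw [← hN] at hN1 hN2
  have hNpos : (0 : ℝ) < N := lt_of_lt_of_le (rp_pos ht _) hN1
  have hNX : (X : ℝ) / (a * D) ≤ N := by
    have := Nat.lt_mul_of_div_lt (Nat.lt_succ_self (X / (a * D))) (Nat.mul_pos ha hD)
    rw [div_le_iff₀ (by positivity)]
    calc (X : ℝ) ≤ (((X / (a * D)).succ * (a * D) : ℕ) : ℝ) := by exact_mod_cast this.le
      _ = _ := by rw [hN]; push_cast; ring
  -- the dilations
  have hΛ0 : 1 ≤ t ^ (1 / 200 : ℝ) := Real.one_le_rpow ht (by norm_num)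
  obtain ⟨hΛ1, hΛ2, hΛ3⟩ := floor_half hΛ0
  set Λ : ℕ := ⌊t ^ (1 / 200 : ℝ)⌋₊ with hΛ
  have hΛpos : (0 : ℝ) < Λ := by exact_mod_cast hΛ2
  -- the number of shifts
  set R : ℝ := t ^ (1 / 200 : ℝ) * t ^ (4 / 25 : ℝ) with hR
  have hR' : R = t ^ (1 / 200 + (4 / 25) : ℝ) := by rw [hR, rp_mul ht]
  have hRpos : 0 < R := by rw [hR']; exact rp_pos ht _
  have hNR : 1 ≤ (N : ℝ) / R := by
    rw [le_div_iff₀ hRpos, one_mul, hR']
    exact (rp_le ht (by rw [he']; norm_num)).trans hN1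
  obtain ⟨hH1, hH2, hH3⟩ := floor_half hNR
  set H : ℕ := ⌊(N : ℝ) / R⌋₊ with hH
  have hHpos : (0 : ℝ) < H := by exact_mod_cast hH2
  -- the functions
  set r' : Fin 12 → ℕ := Fin.snoc (α := fun _ ↦ ℕ) r r0 with hr'
  set Φ' : Fin 12 → ℤ → ℂ := Fin.snoc (α := fun _ ↦ ℤ → ℂ) (fun j n ↦ Φ j (β + D * n))
    (fun n ↦ ((jacobiSym (β + D * n) r0 : ℤ) : ℂ)) with hΦ'
  have hr'R : ∀ j, (r' j : ℝ) ≤ t ^ (4 / 25 : ℝ) := by
    intro j
    refine Fin.lastCases ?_ (fun i ↦ ?_) j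
    · rw [hr', Fin.snoc_last]
      exact hr02
    · rw [hr', Fin.snoc_castSucc]
      exact hr i
  have hmain := hreg a D N H Λ r' Φ' 1 θ β u v ha hDa (Nat.succ_pos _) (by omega)
    (by omega)
    (fun j ↦ by
      refine Fin.lastCases ?_ (fun i ↦ ?_) j
      · rw [hr', Fin.snoc_last]; exact hra
      · rw [hr', Fin.snoc_castSucc]; exact hrja i)
    (fun j ↦ by
      have h1 : ((Λ * r' j * H : ℕ) : ℝ) ≤ N := by
        push_cast
        calc (Λ : ℝ) * r' j * H ≤ t ^ (1 / 200 : ℝ) * t ^ (4 / 25 : ℝ) * (N / R) := by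
              have := hr'R j
              gcongr
          _ = N := by rw [← hR]; field_simp
      exact_mod_cast h1)
    (fun j n ↦ by
      refine Fin.lastCases ?_ (fun i ↦ ?_) j
      · rw [hr', hΦ', Fin.snoc_last, Fin.snoc_last]
        have h1 : (β : ℤ) + D * (n + r0) = (β + D * n) + D * r0 := by ring
        rw [h1]
        have := periodic_nat (Φ := fun n ↦ ((jacobiSym n r0 : ℤ) : ℂ)) (r := r0)
          (fun n ↦ by rw [jac_add]) D (β + D * n)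
        exact this
      · rw [hr', hΦ', Fin.snoc_castSucc, Fin.snoc_castSucc]
        have h1 : (β : ℤ) + D * (n + r i) = (β + D * n) + D * r i := by ring
        rw [h1, periodic_nat (hper i)])
    (fun j n ↦ by
      refine Fin.lastCases ?_ (fun i ↦ ?_) j
      · rw [hΦ', Fin.snoc_last]
        exact jac_norm_le _ _
      · rw [hΦ', Fin.snoc_castSucc]
        exact hΦ i _)
    zero_le_one hθ huN
  have hprod : ∀ n : ℤ, ∏ j, Φ' j n = (∏ j, Φ j (β + D * n)) *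
      ((jacobiSym (β + D * n) r0 : ℤ) : ℂ) := by
    intro n
    rw [Fin.prod_univ_castSucc (n := 11), hΦ', Fin.snoc_last]
    congr 1
  have hsame : ∑ n ∈ Ico u v, (∏ j, Φ' j n) * eInv a θ (β + D * n) =
      ∑ n ∈ Ico u v, (∏ j, Φ j (β + D * n)) *
        (eInv a θ (β + D * n) * ((jacobiSym (β + D * n) r0 : ℤ) : ℂ)) := by
    refine Finset.sum_congr rfl fun n _ ↦ ?_
    rw [hprod]
    ring
  rw [hsame] at hmain
  refine hmain.trans ?_
  -- numerics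
  have hz : (1 : ℝ) / H + (Λ : ℝ) ^ (-(1 / 4) : ℝ) * (1 + a / N) + Λ * sfp a / a ≤
      7 * t ^ (-(1 / 800) + 14 * eta) := by
    have h1 : (1 : ℝ) / H ≤ 2 * t ^ (-(1 / 800) + 14 * eta) := by
      calc (1 : ℝ) / H ≤ 1 / ((N : ℝ) / R / 2) := by
            apply one_div_le_one_div_of_le _ hH1
            positivity
        _ = 2 * (R / N) := by field_simp
        _ ≤ 2 * (R / t ^ (1 / 6 - 15 * eta)) := by
            have := rp_pos ht (1 / 6 - 15 * eta)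
            gcongr
        _ = 2 * t ^ (1 / 200 + (4 / 25) - (1 / 6 - 15 * eta)) := by rw [hR', rp_div ht]
        _ ≤ 2 * t ^ (-(1 / 800) + 14 * eta) := by
            have := rp_le ht (a := 1 / 200 + (4 / 25) - (1 / 6 - 15 * eta))
              (b := -(1 / 800) + 14 * eta) (by rw [he']; norm_num)
            linarith
    have h2 : (Λ : ℝ) ^ (-(1 / 4) : ℝ) ≤ 2 * t ^ (-(1 / 800) : ℝ) := by
      calc (Λ : ℝ) ^ (-(1 / 4) : ℝ) ≤ (t ^ (1 / 200 : ℝ) / 2) ^ (-(1 / 4) : ℝ) := by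
            apply Real.rpow_le_rpow_of_nonpos _ hΛ1 (by norm_num)
            have := rp_pos ht (1 / 200); positivity
        _ = t ^ (-(1 / 800) : ℝ) / (2 : ℝ) ^ (-(1 / 4) : ℝ) := by
            rw [Real.div_rpow (rp_pos ht _).le (by norm_num), ← Real.rpow_mul (by linarith)]
            norm_num
        _ = (2 : ℝ) ^ (1 / 4 : ℝ) * t ^ (-(1 / 800) : ℝ) := by
            rw [Real.rpow_neg (by norm_num : (0 : ℝ) ≤ 2) (1 / 4)]
            field_simp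
        _ ≤ 2 * t ^ (-(1 / 800) : ℝ) := by
            have h3 : (2 : ℝ) ^ (1 / 4 : ℝ) ≤ (2 : ℝ) ^ (1 : ℝ) :=
              Real.rpow_le_rpow_of_exponent_le (by norm_num) (by norm_num)
            rw [Real.rpow_one] at h3
            have := rp_pos ht (-(1 / 800))
            gcongr
    have h3 : (1 : ℝ) + a / N ≤ 2 * t ^ (14 * eta) := by
      have h4 : (a : ℝ) / N ≤ t ^ (14 * eta) := by
        calc (a : ℝ) / N ≤ a / ((X : ℝ) / (a * D)) := by gcongr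
          _ = (a * a) * D / X := by field_simp
          _ ≤ X * D / X := by gcongr
          _ = D := by field_simp
          _ ≤ _ := hDt
      have h5 : (1 : ℝ) ≤ t ^ (14 * eta) := Real.one_le_rpow ht (by positivity)
      linarith
    have h4 : (Λ : ℝ) ^ (-(1 / 4) : ℝ) * (1 + a / N) ≤ 4 * t ^ (-(1 / 800) + 14 * eta) := by
      calc (Λ : ℝ) ^ (-(1 / 4) : ℝ) * (1 + a / N) ≤
          (2 * t ^ (-(1 / 800) : ℝ)) * (2 * t ^ (14 * eta)) := by
            have := rp_pos ht (-(1 / 800))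
            gcongr
        _ = 4 * (t ^ (-(1 / 800) : ℝ) * t ^ (14 * eta)) := by ring
        _ = _ := by rw [rp_mul ht]
    have h5 : (Λ : ℝ) * sfp a / a ≤ t ^ (-(1 / 800) + 14 * eta) := by
      calc (Λ : ℝ) * sfp a / a ≤ t ^ (1 / 200 : ℝ) * t ^ (1 / 24 : ℝ) / t ^ (1 / 15 : ℝ) := by
            have := rp_pos ht (1 / 15)
            have := rp_pos ht (1 / 200)
            gcongr
        _ = t ^ ((1 / 200 : ℝ) + 1 / 24 - 1 / 15) := by rw [rp_mul ht, rp_div ht]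
        _ ≤ _ := rp_le ht (by rw [he']; norm_num)
    linarith
  have hz0 : (0 : ℝ) ≤ 1 / H + (Λ : ℝ) ^ (-(1 / 4) : ℝ) * (1 + a / N) + Λ * sfp a / a := by
    positivity
  have hpow := pow_small ht (by norm_num : (1 : ℝ) ≤ 7) 12 hz0 hz
  have haΛ : ((a : ℝ) * Λ) ^ (1 / 10 ^ 9 : ℝ) ≤ t ^ (1 / 10 ^ 9 : ℝ) := by
    apply Real.rpow_le_rpow (by positivity) _ (by norm_num)
    have h1 : (a : ℝ) ≤ t ^ (1 / 2 : ℝ) := by
      have h2 : (a : ℝ) ^ 2 ≤ (t ^ (1 / 2 : ℝ)) ^ 2 := by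
        have h3 : (t ^ (1 / 2 : ℝ)) ^ 2 = t ^ (1 : ℝ) := by
          rw [← Real.rpow_natCast, ← Real.rpow_mul (by linarith)]; norm_num
        rw [h3, sq]
        exact haX'.trans (hX2.trans (rp_le ht (by rw [he']; norm_num)))
      exact le_of_sq_le_sq h2 (rp_pos ht _).le
    calc (a : ℝ) * Λ ≤ t ^ (1 / 2 : ℝ) * t ^ (1 / 200 : ℝ) := by
          have := rp_pos ht (1 / 2)
          gcongr
      _ = t ^ ((1 / 2 : ℝ) + 1 / 200) := rp_mul ht _ _
      _ ≤ t ^ (1 : ℝ) := rp_le ht (by norm_num)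
      _ = t := Real.rpow_one t
  have p2 := rp_pos ht (1 / 10 ^ 9)
  have p3 := rp_pos ht ((-(1 / 800) + 14 * eta) * (1 / 2 : ℝ) ^ 12)
  have hXa : 0 ≤ (X : ℝ) / (a * D) := by positivity
  calc C * 1 ^ 12 * ((a : ℝ) * Λ) ^ (1 / 10 ^ 9 : ℝ) * N *
        (1 / H + (Λ : ℝ) ^ (-(1 / 4) : ℝ) * (1 + a / N) + Λ * sfp a / a) ^ ((1 / 2 : ℝ) ^ 12)
      ≤ C * 1 ^ 12 * t ^ (1 / 10 ^ 9 : ℝ) * (2 * ((X : ℝ) / (a * D))) *
        (7 * t ^ ((-(1 / 800) + 14 * eta) * (1 / 2 : ℝ) ^ 12)) := by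
        gcongr
    _ = C * 14 * ((X : ℝ) / (a * D)) *
        (t ^ (1 / 10 ^ 9 : ℝ) *
          t ^ ((-(1 / 800) + 14 * eta) * (1 / 2 : ℝ) ^ 12)) := by ring
    _ = C * 14 * ((X : ℝ) / (a * D)) *
        t ^ (1 / 10 ^ 9 + (-(1 / 800) + 14 * eta) * (1 / 2 : ℝ) ^ 12) := by
        rw [rp_mul ht]
    _ ≤ C * 14 * ((X : ℝ) / (a * D)) * t ^ (-(3 / 10 ^ 7) : ℝ) := by
        refine mul_le_mul_of_nonneg_left (rp_le ht ?_) (by positivity)
        rw [he']; norm_num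

end

end Pool.Agent.Work.MP_af11aa_nt.W2
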