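import Mathlib
import Pool.Agent.Work.MP_af11aa_nt.W2.PairSum
import Pool.Agent.Work.MP_af11aa_nt.W.FixK

set_option autoImplicit false

namespace Pool.Agent.Work.MP_af11aa_nt.W2

open Finset ComplexConjugate Pool.Agent.Work.MP_af11aa_nt.W

noncomputable section

/-- the chunk functions. -/
def Phi (T : ℝ) (k2 : ℕ) (r : Fin 4 → ℕ) (r' : Fin 7 → ℕ) (w : Fin 4 → ℤ) (σ : Bool) (a : ℕ) :
    Fin 11 → ℤ → ℂ :=
  (Fin.append (fun (j : Fin 4) (n : ℤ) ↦ ((T⁻¹ : ℝ) : ℂ) * (jc ((a : ℤ) * n) (r j) *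
      cj σ (ktr T (r j) (w j) ((a : ℤ) * n * k2))))
    (fun (i : Fin 7) (n : ℤ) ↦ jc ((a : ℤ) * n) (r' i)) : Fin (4 + 7) → ℤ → ℂ)

/-- the moduli. -/
def Rr (r : Fin 4 → ℕ) (r' : Fin 7 → ℕ) : Fin 11 → ℕ := (Fin.append r r' : Fin (4 + 7) → ℕ)

lemma Phi_prod (T : ℝ) (k2 : ℕ) (r : Fin 4 → ℕ) (r' : Fin 7 → ℕ) (w : Fin 4 → ℤ) (σ : Bool)
    (a : ℕ) (n : ℤ) : ∏ j, Phi T k2 r r' w σ a j n =
      ((T⁻¹ : ℝ) : ℂ) ^ 4 * (∏ j, (jc ((a : ℤ) * n) (r j) * cj σ (ktr T (r j) (w j) ((a : ℤ) * n * k2)))) *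
        ∏ i, jc ((a : ℤ) * n) (r' i) := by
  have h := Fin.prod_univ_add (fun j : Fin (4 + 7) ↦ Phi T k2 r r' w σ a j n)
  refine h.trans ?_
  have h1 : ∏ j : Fin 4, Phi T k2 r r' w σ a (Fin.castAdd 7 j) n =
      ((T⁻¹ : ℝ) : ℂ) ^ 4 * ∏ j, (jc ((a : ℤ) * n) (r j) *
        cj σ (ktr T (r j) (w j) ((a : ℤ) * n * k2))) := by
    have h2 : ∀ j : Fin 4, Phi T k2 r r' w σ a (Fin.castAdd 7 j) n =
        ((T⁻¹ : ℝ) : ℂ) * (jc ((a : ℤ) * n) (r j) *
          cj σ (ktr T (r j) (w j) ((a : ℤ) * n * k2))) := by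
      intro j
      unfold Phi
      rw [Fin.append_left]
    rw [Finset.prod_congr rfl fun j _ ↦ h2 j, Finset.prod_mul_distrib, Finset.prod_const,
      Finset.card_univ, Fintype.card_fin]
  have h3 : ∀ i : Fin 7, Phi T k2 r r' w σ a (Fin.natAdd 4 i) n = jc ((a : ℤ) * n) (r' i) := by
    intro i
    unfold Phi
    rw [Fin.append_right]
  exact congrArg₂ (· * ·) h1 (Finset.prod_congr rfl fun i _ ↦ h3 i)

lemma Rr_cases {P : ℕ → Prop} {r : Fin 4 → ℕ} {r' : Fin 7 → ℕ} (h1 : ∀ j, P (r j))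
    (h2 : ∀ j, P (r' j)) (j : Fin 11) : P (Rr r r' j) := by
  have : ∀ j : Fin (4 + 7), P ((Fin.append r r' : Fin (4 + 7) → ℕ) j) := by
    intro j
    induction j using Fin.addCases with
    | left j => rw [Fin.append_left]; exact h1 j
    | right j => rw [Fin.append_right]; exact h2 j
  exact this j

lemma Phi_per (T : ℝ) (k2 : ℕ) (r : Fin 4 → ℕ) (r' : Fin 7 → ℕ) (w : Fin 4 → ℤ) (σ : Bool)
    (a : ℕ) (j : Fin 11) (n : ℤ) :
    Phi T k2 r r' w σ a j (n + Rr r r' j) = Phi T k2 r r' w σ a j n := by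
  have hj : ∀ (x : ℤ) (q : ℕ), jc ((a : ℤ) * (x + q)) q = jc ((a : ℤ) * x) q := by
    intro x q
    unfold jc
    rw [jacobiSym.mod_left ((a : ℤ) * (x + q)), jacobiSym.mod_left ((a : ℤ) * x)]
    have : (a : ℤ) * (x + q) = a * x + q * a := by ring
    rw [this, Int.add_mul_emod_self_left]
  have : ∀ j : Fin (4 + 7), Phi T k2 r r' w σ a j (n + (Fin.append r r' : Fin (4 + 7) → ℕ) j) =
      Phi T k2 r r' w σ a j n := by
    intro j
    unfold Phi
    induction j using Fin.addCases with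
    | left j =>
      rw [Fin.append_left, Fin.append_left]
      rw [hj]
      congr 3
      apply ktr_congr
      apply Int.ModEq.symm
      apply Int.modEq_of_dvd
      exact ⟨a * k2, by ring⟩
    | right j =>
      rw [Fin.append_right, Fin.append_right]
      rw [hj]
  exact this j

lemma Phi_norm {T : ℝ} (hT : 1 ≤ T) (k2 : ℕ) (r : Fin 4 → ℕ) (r' : Fin 7 → ℕ) (w : Fin 4 → ℤ)
    (σ : Bool) (a : ℕ) (j : Fin 11) (n : ℤ) : ‖Phi T k2 r r' w σ a j n‖ ≤ 1 := by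
  have : ∀ j : Fin (4 + 7), ‖Phi T k2 r r' w σ a j n‖ ≤ 1 := by
    intro j
    unfold Phi
    induction j using Fin.addCases with
    | left j =>
      have hT0 : 0 < T := by linarith
      rw [Fin.append_left, norm_mul, norm_mul, cj_norm, Complex.norm_real,
        Real.norm_of_nonneg (by positivity)]
      calc T⁻¹ * (‖jc ((a : ℤ) * n) (r j)‖ * ‖ktr T (r j) (w j) ((a : ℤ) * n * k2)‖)
          ≤ T⁻¹ * (1 * T) := by
            apply mul_le_mul_of_nonneg_left _ (by positivity)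
            exact mul_le_mul (jc_norm _ _) (norm_ktr_le (by linarith) _ _ _) (norm_nonneg _)
              zero_le_one
        _ = 1 := by field_simp
    | right j =>
      rw [Fin.append_right]
      exact jc_norm _ _
  exact this j

/-- the identification of the summand. -/
lemma bridge {k1 k2 m1 m2 r0 : ℕ} (σ : Bool) {T : ℝ} (hT : 1 ≤ T) (r : Fin 4 → ℕ) (r' : Fin 7 → ℕ)
    (w : Fin 4 → ℤ) (H : ℤ → ℂ) (hk1 : 0 < k1) (h4 : 4 ∣ k2) (hr : ∀ j, 0 < r j)
    (hrk : ∏ j, r j = k1) (hm2 : m2 = 1 ∨ m2 = 2) (hr0 : 0 < r0) (hr' : ∀ j, 0 < r' j)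
    (hm1 : r0 * ∏ j, r' j = m1) (hH0 : ∀ x, ¬ IsCoprime x (8 * k2 : ℤ) → H x = 0)
    {a : ℕ} (ha : 0 < a) (han : a.Coprime (k1 * k2 * (m2 * m1))) (b : ℕ) (W : ℂ) :
    (if a.Coprime b ∧ b.Coprime (k1 * k2 * (m2 * m1)) then
      ((Real.sqrt k1 : ℝ) : ℂ) * (H ((a * b : ℕ) : ℤ) * jc ((a * b : ℕ) : ℤ) k1 *
        jc ((a * b : ℕ) : ℤ) m1) *
      cj σ (∏ j, ktr T (r j) (w j) ((a * b * k2 : ℕ) : ℤ)) *
      cj σ (eI a (4 * ((m2 * m1 : ℕ) : ℤ)) (((k1 * k2 : ℕ) : ℤ) * b)) * W else 0) =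
    (((Real.sqrt k1 * T ^ 4 : ℝ) : ℂ) * H ((a * b : ℕ) : ℤ)) * (jc a r0 *
      ((∏ j, Phi T k2 r r' w σ a j b) *
        (eInv a (sg σ * (4 * ((m2 * m1 : ℕ) : ℤ)) * ivz a ((k1 * k2 : ℕ) : ℤ)) b * jc b r0))) * W := by
  have hm1p : 0 < m1 := by
    rw [← hm1]
    exact Nat.mul_pos hr0 (Finset.prod_pos fun j _ ↦ hr' j)
  have hab : ((a * b : ℕ) : ℤ) = (a : ℤ) * b := by push_cast; rfl
  have hT0 : (T : ℂ) ≠ 0 := by
    have : T ≠ 0 := by linarith
    exact_mod_cast this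
  have hTc : ((Real.sqrt k1 * T ^ 4 : ℝ) : ℂ) = ((Real.sqrt k1 : ℝ) : ℂ) * (T : ℂ) ^ 4 := by
    rw [Complex.ofReal_mul, Complex.ofReal_pow]
  have hprod : (T : ℂ) ^ 4 * (∏ j, Phi T k2 r r' w σ a j b) * (jc a r0 * jc b r0) =
      jc ((a * b : ℕ) : ℤ) k1 * jc ((a * b : ℕ) : ℤ) m1 *
        cj σ (∏ j, ktr T (r j) (w j) ((a * b * k2 : ℕ) : ℤ)) := by
    have hd : jc ((a * b : ℕ) : ℤ) m1 = jc a r0 * jc b r0 * ∏ j, jc ((a * b : ℕ) : ℤ) (r' j) := by
      rw [← jc_mul, ← jc_prod r' hr', ← hab, ← hm1]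
      unfold jc
      have : NeZero r0 := ⟨hr0.ne'⟩
      have : NeZero (∏ j : Fin 7, r' j) := ⟨(Finset.prod_pos fun j _ ↦ hr' j).ne'⟩
      rw [jacobiSym.mul_right]
      push_cast
      rfl
    rw [Phi_prod, Finset.prod_mul_distrib, hd, ← hrk, jc_prod r hr, cj_prod, hab]
    push_cast
    field_simp
  split_ifs with h
  · obtain ⟨h1, h2⟩ := h
    have hka : IsCoprime ((k1 * k2 : ℕ) : ℤ) (a : ℤ) :=
      Nat.isCoprime_iff_coprime.2 (Nat.Coprime.coprime_mul_right_right han).symm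
    have hba : IsCoprime (b : ℤ) (a : ℤ) := Nat.isCoprime_iff_coprime.2 h1.symm
    rw [cj_eI, eI_move ha _ hka hba]
    unfold eInv
    rw [if_pos hba, hTc]
    linear_combination (-(((Real.sqrt k1 : ℝ) : ℂ) * H ((a * b : ℕ) : ℤ) *
      eI a (sg σ * (4 * ((m2 * m1 : ℕ) : ℤ)) * ivz a ((k1 * k2 : ℕ) : ℤ)) b * W)) * hprod
  · symm
    by_cases h1 : a.Coprime b
    · have h2 : ¬ b.Coprime (k1 * k2 * (m2 * m1)) := fun h2 ↦ h ⟨h1, h2⟩
      have hz : H ((a * b : ℕ) : ℤ) = 0 ∨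
          (T : ℂ) ^ 4 * (∏ j, Phi T k2 r r' w σ a j b) * (jc a r0 * jc b r0) = 0 := by
        by_cases e2 : b.Coprime k2
        · right
          rw [hprod]
          by_cases e1 : b.Coprime k1
          · have e3 : ¬ b.Coprime m1 := by
              intro e3
              apply h2
              apply Nat.Coprime.mul_right (Nat.Coprime.mul_right e1 e2)
              apply Nat.Coprime.mul_right _ e3
              rcases hm2 with h5 | h5
              · rw [h5]; exact Nat.coprime_one_right b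
              · rw [h5]
                exact Nat.Coprime.coprime_dvd_right ((by norm_num : 2 ∣ 4).trans h4) e2
            have : jc ((a * b : ℕ) : ℤ) m1 = 0 := by
              apply jc_zero hm1p
              intro hc
              apply e3
              rw [hab] at hc
              exact Nat.isCoprime_iff_coprime.1 hc.of_mul_left_right
            rw [this]; ring
          · have : jc ((a * b : ℕ) : ℤ) k1 = 0 := by
              apply jc_zero hk1
              intro hc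
              apply e1
              rw [hab] at hc
              exact Nat.isCoprime_iff_coprime.1 hc.of_mul_left_right
            rw [this]; ring
        · left
          apply hH0
          intro hc
          apply e2
          rw [hab] at hc
          exact Nat.isCoprime_iff_coprime.1 hc.of_mul_left_right.of_mul_right_right
      rcases hz with hz | hz
      · rw [hz]; ring
      · rw [hTc]
        linear_combination ((((Real.sqrt k1 : ℝ) : ℂ) * H ((a * b : ℕ) : ℤ) *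
          eInv a (sg σ * (4 * ((m2 * m1 : ℕ) : ℤ)) * ivz a ((k1 * k2 : ℕ) : ℤ)) b * W)) * hz
    · have : eInv a (sg σ * (4 * ((m2 * m1 : ℕ) : ℤ)) * ivz a ((k1 * k2 : ℕ) : ℤ)) b = 0 := by
        unfold eInv
        rw [if_neg]
        intro hc
        exact h1 (Nat.isCoprime_iff_coprime.1 hc).symm
      rw [this]; ring

end

end Pool.Agent.Work.MP_af11aa_nt.W2
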