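import Mathlib
import Pool.Agent.Work.MP_af11aa_nt.W2.FixK
import Pool.Agent.Work.MP_af11aa_nt.W.Term

set_option autoImplicit false

namespace Pool.Agent.Work.MP_af11aa_nt.W2

open Finset ComplexConjugate Pool.Agent.Work.MP_af11aa_nt.W

noncomputable section

/-- the exact evaluation of a term. -/
theorem term_eq {k1 k2 m1 m2 : ℕ} (hk1 : 0 < k1) (hk2 : 0 < k2) (h12 : k1.Coprime k2)
    (V : ℕ → ℂ) (H : Bool → ℤ → ℂ)
    (r : Fin 4 → ℕ) (hr : ∀ j, 0 < r j) (hrc : ∀ i j, i ≠ j → (r i).Coprime (r j))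
    (hrk : ∏ j, r j = k1) {c : ℕ} (hodd : Odd c) (hc1 : 1 < c) (hck1 : c.Coprime k1)
    (hck2 : c.Coprime k2) (hcm : c.Coprime (m2 * m1))
    (hH : ∀ σ, ((jacobiSym (((m2 * m1) * (k1 * k2) : ℕ) : ℤ) c : ℤ) : ℂ) * gs c * V c *
            eI k2 (sg σ * (2 * ((m2 * m1 : ℕ) : ℤ))) ((c * k1 : ℕ) : ℤ) =
          H σ c * ((jacobiSym (c : ℤ) k1 : ℤ) : ℂ) * ((jacobiSym (c : ℤ) m1 : ℤ) : ℂ))
    (y s : ℝ) :
    salS c ((m2 * m1 : ℕ) : ℤ) ((k1 * k2 : ℕ) : ℤ) *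
        kloo k1 ((m2 * m1 : ℕ) : ℤ) ((c * k2 : ℕ) : ℤ) * V c / ((c * (k1 * k2) : ℕ) : ℂ) *
        psW (m2 * m1) y s ((c * (k1 * k2) : ℕ) : ℝ) =
      ∑ x ∈ prs c, ∑ σ : Bool, ((Real.sqrt k1 : ℝ) : ℂ) *
        (H σ c * ((jacobiSym (c : ℤ) k1 : ℤ) : ℂ) * ((jacobiSym (c : ℤ) m1 : ℤ) : ℂ)) *
        cj σ (∏ j, kfun (r j) (((m2 * m1 : ℕ) : ℤ) * ivz (r j) (k1 / r j : ℕ))
          ((c * k2 : ℕ) : ℤ)) *
        cj σ (eI x.1 (4 * ((m2 * m1 : ℕ) : ℤ)) (((k1 * k2 : ℕ) : ℤ) * x.2)) *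
        wgt (m2 * m1) (k1 * k2) y s σ c := by
  set m := m2 * m1 with hm
  set k := k1 * k2 with hk
  have hk0 : 0 < k := Nat.mul_pos hk1 hk2
  have hc0 : 0 < c := by omega
  have hcR : (0 : ℝ) < c := by exact_mod_cast hc0
  have hkR : (0 : ℝ) < k := by exact_mod_cast hk0
  have hck : c.Coprime k := Nat.Coprime.mul_right hck1 hck2
  have hmc : IsCoprime (m : ℤ) (c : ℤ) := Nat.isCoprime_iff_coprime.2 hcm.symm
  have hkc : IsCoprime (k : ℤ) (c : ℤ) := Nat.isCoprime_iff_coprime.2 hck.symm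
  rw [salie_exact c hodd m k hmc hkc, gauss_sign c hodd, sqrt_pairs c hodd hc1 m k hck.symm hk0]
  have hmk : ((m : ℤ) * (k : ℤ)) = ((m * k : ℕ) : ℤ) := by push_cast; ring
  rw [hmk]
  -- the Kloosterman factor
  have hx : IsCoprime ((c * k2 : ℕ) : ℤ) ((∏ j, r j : ℕ) : ℤ) := by
    rw [hrk]
    exact Nat.isCoprime_iff_coprime.2 (Nat.Coprime.mul_left hck1 h12.symm)
  have hkl := kloo_crt 4 r hr hrc (m : ℤ) ((c * k2 : ℕ) : ℤ) hx
  rw [hrk] at hkl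
  set K : ℂ := ∏ j, kfun (r j) ((m : ℤ) * ivz (r j) (k1 / r j : ℕ)) ((c * k2 : ℕ) : ℤ) with hK
  -- for each pair and each sign
  have hpair : ∀ x ∈ prs c, ∀ σ : Bool,
      kloo k1 (m : ℤ) ((c * k2 : ℕ) : ℤ) * cj σ (Ph k m x.1 x.2) =
        ((Real.sqrt k1 : ℝ) : ℂ) * cj σ K * eI k2 (sg σ * (2 * (m : ℤ))) ((c * k1 : ℕ) : ℤ) *
        cj σ (eI x.1 (4 * (m : ℤ)) ((k : ℤ) * x.2)) *
        Complex.exp ((if σ then (-1 : ℂ) else 1) * (2 * Real.pi * Complex.I * (2 * m) / (k * c))) := by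
    intro x hx σ
    unfold prs at hx
    rw [mem_filter, Nat.mem_divisorsAntidiagonal] at hx
    have hxc : x.1 * x.2 = c := hx.1.1
    unfold Ph
    have e1 : eI k (2 * (m : ℤ)) ((x.1 : ℤ) * x.2) =
        eI k1 (2 * (m : ℤ)) ((c * k2 : ℕ) : ℤ) * eI k2 (2 * (m : ℤ)) ((c * k1 : ℕ) : ℤ) := by
      have h3 : ((x.1 : ℤ) * x.2) = (c : ℤ) := by exact_mod_cast hxc
      rw [h3, hk, eI_crt hk1 hk2 h12 (2 * (m : ℤ)) (x := (c : ℤ)) (by
        rw [← hk]; exact hkc.symm)]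
      push_cast
      rfl
    rw [e1, cj_mul, cj_mul, cj_mul]
    have e2 : kloo k1 (m : ℤ) ((c * k2 : ℕ) : ℤ) *
        cj σ (eI k1 (2 * (m : ℤ)) ((c * k2 : ℕ) : ℤ)) = ((Real.sqrt k1 : ℝ) : ℂ) * cj σ K := by
      have h4 := congrArg (cj σ) hkl
      rw [cj_mul, cj_mul, kloo_cj hk1] at h4
      rw [h4]
      congr 1
      unfold cj
      split_ifs
      · rfl
      · exact Complex.conj_ofReal _
    have e3 : cj σ (Complex.exp (-(2 * Real.pi * Complex.I * (2 * m) / (k * (x.1 * x.2))))) =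
        Complex.exp ((if σ then (-1 : ℂ) else 1) *
          (2 * Real.pi * Complex.I * (2 * m) / (k * c))) := by
      have h3 : ((x.1 : ℂ) * x.2) = (c : ℂ) := by exact_mod_cast hxc
      rw [h3]
      cases σ
      · change conj (Complex.exp _) = _
        rw [← Complex.exp_conj]
        congr 1
        simp only [map_neg, map_div₀, map_mul, Complex.conj_I, Complex.conj_ofReal, map_ofNat,
          map_natCast, Bool.false_eq_true, if_false]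
        ring
      · change Complex.exp _ = _
        congr 1
        simp only [if_true]
        ring
    rw [e3, cj_eI σ k2, ← e2]
    ring
  have hw : ∀ σ : Bool, wgt m k y s σ c = ((Real.sqrt c / (k * c) : ℝ) : ℂ) *
      Complex.exp ((if σ then (-1 : ℂ) else 1) * (2 * Real.pi * Complex.I * (2 * m) / (k * c))) *
      psW m y s (k * c) := by
    intro σ
    unfold wgt
    push_cast
    rfl
  have hps : psW m y s ((c * k : ℕ) : ℝ) = psW m y s (k * c) := by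
    push_cast; rw [mul_comm]
  have hsum : ∑ x ∈ c.divisorsAntidiagonal.filter (fun x ↦ x.1.Coprime x.2 ∧ x.1 < x.2),
      (Ph k m x.1 x.2 + conj (Ph k m x.1 x.2)) = ∑ x ∈ prs c, ∑ σ : Bool, cj σ (Ph k m x.1 x.2) := by
    refine Finset.sum_congr rfl fun x _ ↦ ?_
    rw [Fintype.sum_bool]
    rfl
  rw [hsum, hps]
  have hfin : ∀ x ∈ prs c, ∀ σ : Bool,
      ((jacobiSym ((m * k : ℕ) : ℤ) c : ℤ) : ℂ) * (gs c * ((Real.sqrt c : ℝ) : ℂ)) *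
        cj σ (Ph k m x.1 x.2) * kloo k1 (m : ℤ) ((c * k2 : ℕ) : ℤ) * V c / ((c * k : ℕ) : ℂ) *
        psW m y s (k * c) =
      ((Real.sqrt k1 : ℝ) : ℂ) *
        (H σ c * ((jacobiSym (c : ℤ) k1 : ℤ) : ℂ) * ((jacobiSym (c : ℤ) m1 : ℤ) : ℂ)) *
        cj σ K * cj σ (eI x.1 (4 * (m : ℤ)) ((k : ℤ) * x.2)) * wgt m k y s σ c := by
    intro x hx σ
    have h5 := hpair x hx σ
    rw [← hH σ, hw]
    have h6 : ((Real.sqrt c / (k * c) : ℝ) : ℂ) = ((Real.sqrt c : ℝ) : ℂ) / ((c * k : ℕ) : ℂ) := by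
      push_cast; rw [mul_comm (k : ℂ)]
    rw [h6]
    calc ((jacobiSym ((m * k : ℕ) : ℤ) c : ℤ) : ℂ) * (gs c * ((Real.sqrt c : ℝ) : ℂ)) *
        cj σ (Ph k m x.1 x.2) * kloo k1 (m : ℤ) ((c * k2 : ℕ) : ℤ) * V c / ((c * k : ℕ) : ℂ) *
        psW m y s (k * c)
        = ((jacobiSym ((m * k : ℕ) : ℤ) c : ℤ) : ℂ) * gs c * V c *
          (kloo k1 (m : ℤ) ((c * k2 : ℕ) : ℤ) * cj σ (Ph k m x.1 x.2)) *
          (((Real.sqrt c : ℝ) : ℂ) / ((c * k : ℕ) : ℂ)) * psW m y s (k * c) := by ring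
      _ = _ := by
          rw [h5, hk]
          ring
  rw [← Finset.sum_congr rfl fun x hx ↦ Finset.sum_congr rfl fun σ _ ↦ hfin x hx σ]
  simp_rw [Finset.mul_sum, Finset.sum_mul, Finset.sum_div, Finset.sum_mul]

end

end Pool.Agent.Work.MP_af11aa_nt.W2
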