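import Mathlib
import Pool.Agent.Work.MP_af11aa_nt.W2.Term
import Pool.Agent.Work.MP_af11aa_nt.W.FixK2

set_option autoImplicit false

namespace Pool.Agent.Work.MP_af11aa_nt.W2

open Finset ComplexConjugate Pool.Agent.Work.MP_af11aa_nt.W

noncomputable section

/-- the hypotheses on the parameters for a fixed part of the modulus. -/
structure Hyp (t : ℝ) (q m1 m2 k1 k2 r0 X : ℕ) (r : Fin 4 → ℕ) (r' : Fin 7 → ℕ) : Prop where
  ht : 1 ≤ t
  hq : 0 < q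
  hk1o : Odd k1
  hk1s : Squarefree k1
  hk2 : 0 < k2
  h4 : 4 ∣ k2
  h12 : k1.Coprime k2
  hm1o : Odd m1
  hm1s : Squarefree m1
  hm2 : m2 = 1 ∨ m2 = 2
  hkm : k1.Coprime (m2 * m1)
  hr : ∀ j, 0 < r j
  hrk : ∏ j, r j = k1
  hrt : ∀ j, (r j : ℝ) ≤ t ^ (4 / 25 : ℝ)
  hr' : ∀ j, 0 < r' j
  hrm : r0 * ∏ j, r' j = m1
  hrt' : ∀ j, (r' j : ℝ) ≤ t ^ (4 / 25 : ℝ)
  hr01 : t ^ (1 / 30 : ℝ) ≤ r0
  hr02 : (r0 : ℝ) ≤ t ^ (4 / 25 : ℝ)
  hr0k : r0.Coprime k2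
  hD : ((8 * k2 : ℕ) : ℝ) ≤ t ^ (14 * eta)
  hX : (X : ℝ) ≤ t ^ (1 / 3 + 4 * eta)
  hqt : t ^ (1 / 3 - 2 * eta) ≤ q
  hkq : k1 ≤ q
  hXk : (X : ℝ) ≤ t ^ (6 * eta) * k1
  hmk : ((m2 * m1 : ℕ) : ℝ) ≤ t ^ (6 * eta) * (((k1 * k2 : ℕ) : ℝ) * q)

/-- the summand after truncation. -/
def Fm (T : ℝ) (m1 m2 k1 k2 : ℕ) (r : Fin 4 → ℕ) (w : Fin 4 → ℤ) (H : ℤ → ℂ) (y s : ℝ) (σ : Bool)
    (a b : ℕ) : ℂ :=
  ((Real.sqrt k1 : ℝ) : ℂ) * (H ((a * b : ℕ) : ℤ) * jc ((a * b : ℕ) : ℤ) k1 *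
        jc ((a * b : ℕ) : ℤ) m1) *
      cj σ (∏ j, ktr T (r j) (w j) ((a * b * k2 : ℕ) : ℤ)) *
      cj σ (eI a (4 * ((m2 * m1 : ℕ) : ℤ)) (((k1 * k2 : ℕ) : ℤ) * b)) *
      wgt (m2 * m1) (k1 * k2) y s σ ((a * b : ℕ) : ℝ)

lemma t_le_of_exp {t : ℝ} (ht : 1 ≤ t) {a : ℝ} (ha : a ≤ 1) : t ^ a ≤ t := by
  calc t ^ a ≤ t ^ (1 : ℝ) := rp_le ht ha
    _ = t := Real.rpow_one t

lemma main_part : ∃ C : ℝ, 0 < C ∧ ∀ {t : ℝ} {q m1 m2 k1 k2 r0 X : ℕ} {r : Fin 4 → ℕ}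
    {r' : Fin 7 → ℕ} (_ : Hyp t q m1 m2 k1 k2 r0 X r r') (_ : q < X) (w : Fin 4 → ℤ)
    (H : ℤ → ℂ) (_ : ∀ x, H (x + 8 * k2) = H x) (_ : ∀ x, ‖H x‖ ≤ k2)
    (_ : ∀ x, ¬ IsCoprime x (8 * k2 : ℤ) → H x = 0) (y s : ℝ)
    (_ : y ∈ Set.Ico (1 / ((m2 * m1 : ℕ) : ℝ)) (2 / ((m2 * m1 : ℕ) : ℝ))) (σ : Bool),
    ‖∑ c ∈ (Ioc q X).filter (fun c ↦ c.Coprime (k1 * k2 * (m2 * m1))), ∑ x ∈ prs c,
      Fm (t ^ (7 * eta)) m1 m2 k1 k2 r w H y s σ x.1 x.2‖ ≤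
      C * (1 + Real.log t) * t ^ (40 * eta - 3 / 10 ^ 7) := by
  obtain ⟨C, hC, hP⟩ := pair_sum
  refine ⟨2 * C, by positivity, ?_⟩
  intro t q m1 m2 k1 k2 r0 X r r' h hqX w H hHp hHB hH0 y s hy σ
  have ht := h.ht
  have he : (0 : ℝ) < eta := by unfold eta; positivity
  have he' : eta = 7 / 10 ^ 9 := rfl
  have hk1 : 0 < k1 := h.hk1o.pos
  have hk2 := h.hk2
  have hm1 : 0 < m1 := h.hm1o.pos
  have hm2 : 0 < m2 := by rcases h.hm2 with e | e <;> omega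
  have hm : 0 < m2 * m1 := Nat.mul_pos hm2 hm1
  have hr0 : 0 < r0 := by
    rcases Nat.eq_zero_or_pos r0 with e | e
    · have := h.hrm
      rw [e, zero_mul] at this
      omega
    · exact e
  have hr0d : r0 ∣ m1 := by rw [← h.hrm]; exact dvd_mul_right _ _
  have hr'd : ∀ j, r' j ∣ m1 := fun j ↦ by
    rw [← h.hrm]
    exact (Finset.dvd_prod_of_mem r' (Finset.mem_univ j)).mul_left r0
  have hrd : ∀ j, r j ∣ k1 := fun j ↦ by
    rw [← h.hrk]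
    exact Finset.dvd_prod_of_mem r (Finset.mem_univ j)
  have hodd : Odd r0 := Odd.of_dvd_nat h.hm1o hr0d
  have h2k2 : 2 ∣ k2 := (by norm_num : 2 ∣ 4).trans h.h4
  rw [pairs_swap]
  set A := (Icc 1 X).filter (fun a ↦ a * a ≤ X ∧ a.Coprime (k1 * k2 * (m2 * m1))) with hA
  have hX1 : t ^ (1 / 3 - 2 * eta) ≤ X := h.hqt.trans (by exact_mod_cast hqX.le)
  have hfin := hP t X (8 * k2) (k1 * k2) q (m2 * m1) r0 (Real.sqrt k1 * (t ^ (7 * eta)) ^ 4 * k2) y s σ (Rr r r') A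
    (fun a ↦ Phi (t ^ (7 * eta)) k2 r r' w σ a)
    (fun a ↦ sg σ * (4 * ((m2 * m1 : ℕ) : ℤ)) * ivz a ((k1 * k2 : ℕ) : ℤ))
    (fun a ↦ jc a r0) (fun x ↦ ((Real.sqrt k1 * (t ^ (7 * eta)) ^ 4 : ℝ) : ℂ) * H x) ht (by omega)
    (Nat.mul_pos hk1 hk2) h.hq hm hX1 h.hX h.hD ?_ h.hr01 h.hr02 hodd
    (h.hm1s.squarefree_of_dvd hr0d) ?_ ?_ ?_ ?_ ?_ ?_ ?_ hy
  · have hsum : ∀ a ∈ A, ∑ b ∈ Ioc (max a (q / a)) (X / a),
        (if a.Coprime b ∧ b.Coprime (k1 * k2 * (m2 * m1)) then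
          Fm (t ^ (7 * eta)) m1 m2 k1 k2 r w H y s σ a b else 0) =
        ∑ b ∈ Ioc (max a (q / a)) (X / a),
          (((Real.sqrt k1 * (t ^ (7 * eta)) ^ 4 : ℝ) : ℂ) * H ((a * b : ℕ) : ℤ)) * (jc a r0 *
            ((∏ j, Phi (t ^ (7 * eta)) k2 r r' w σ a j b) *
            (eInv a (sg σ * (4 * ((m2 * m1 : ℕ) : ℤ)) * ivz a ((k1 * k2 : ℕ) : ℤ)) b *
              ((jacobiSym b r0 : ℤ) : ℂ)))) * wgt (m2 * m1) (k1 * k2) y s σ ((a * b : ℕ) : ℝ) := by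
      intro a ha
      rw [hA, mem_filter, mem_Icc] at ha
      refine Finset.sum_congr rfl fun b _ ↦ ?_
      exact bridge σ (Real.one_le_rpow ht (by positivity)) r r' w H hk1 h.h4 h.hr h.hrk h.hm2 hr0 h.hr' h.hrm hH0
        (by omega) ha.2.2 b _
    rw [Finset.sum_congr rfl hsum]
    refine hfin.trans ?_
    -- numerics
    have hk1' : (0 : ℝ) < k1 := by exact_mod_cast hk1
    have hk2' : (0 : ℝ) < k2 := by exact_mod_cast hk2
    have hq' : (0 : ℝ) < q := by exact_mod_cast h.hq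
    have hX' : (0 : ℝ) < X := lt_of_lt_of_le (rp_pos ht _) hX1
    have hs1 : 0 < Real.sqrt k1 := Real.sqrt_pos.2 hk1'
    have hsq : 0 < Real.sqrt q := Real.sqrt_pos.2 hq'
    have hT4 : (t ^ (7 * eta)) ^ 4 = t ^ (28 * eta) := by
      rw [← Real.rpow_natCast, ← Real.rpow_mul (by linarith)]
      congr 1; push_cast; ring
    have h28 : 0 < t ^ (28 * eta) := rp_pos ht _
    have e1 : Real.sqrt k1 * (t ^ (7 * eta)) ^ 4 * k2 * X / (((k1 * k2 : ℕ) : ℝ) * Real.sqrt q) ≤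
        t ^ (34 * eta) := by
      rw [hT4, div_le_iff₀ (by positivity)]
      have e2 : Real.sqrt k1 ≤ Real.sqrt q := Real.sqrt_le_sqrt (by exact_mod_cast h.hkq)
      have h6 : 0 < t ^ (6 * eta) := rp_pos ht _
      have h34 : t ^ (34 * eta) = t ^ (28 * eta) * t ^ (6 * eta) := by
        rw [rp_mul ht]; congr 1; ring
      calc Real.sqrt k1 * t ^ (28 * eta) * k2 * X ≤
            Real.sqrt q * t ^ (28 * eta) * k2 * (t ^ (6 * eta) * k1) := by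
            apply mul_le_mul _ h.hXk hX'.le (by positivity)
            exact mul_le_mul_of_nonneg_right (mul_le_mul_of_nonneg_right e2 h28.le) hk2'.le
        _ = t ^ (34 * eta) * (((k1 * k2 : ℕ) : ℝ) * Real.sqrt q) := by
            rw [h34]; push_cast; ring
    have e3 : 1 + ((m2 * m1 : ℕ) : ℝ) / (((k1 * k2 : ℕ) : ℝ) * q) ≤ 2 * t ^ (6 * eta) := by
      have e4 : ((m2 * m1 : ℕ) : ℝ) / (((k1 * k2 : ℕ) : ℝ) * q) ≤ t ^ (6 * eta) := by
        rw [div_le_iff₀ (by positivity)]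
        exact h.hmk
      have e5 : 1 ≤ t ^ (6 * eta) := Real.one_le_rpow ht (by positivity)
      linarith
    have e6 : 1 + Real.log X ≤ 1 + Real.log t := by
      have : (X : ℝ) ≤ t := h.hX.trans (t_le_of_exp ht (by rw [he']; norm_num))
      have := Real.log_le_log hX' this
      linarith
    have e7 : 0 ≤ 1 + Real.log X := by
      have : (1 : ℝ) ≤ X := by exact_mod_cast (by omega : 1 ≤ X)
      have := Real.log_nonneg this
      linarith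
    have h6 : 0 < t ^ (6 * eta) := rp_pos ht _
    have h7 : 0 < t ^ (-(3 / 10 ^ 7) : ℝ) := rp_pos ht _
    have h34p : 0 < t ^ (34 * eta) := rp_pos ht _
    calc C * (Real.sqrt k1 * (t ^ (7 * eta)) ^ 4 * k2 * X / (((k1 * k2 : ℕ) : ℝ) * Real.sqrt q)) *
        (1 + ((m2 * m1 : ℕ) : ℝ) / (((k1 * k2 : ℕ) : ℝ) * q)) * (1 + Real.log X) *
        t ^ (-(3 / 10 ^ 7) : ℝ)
        ≤ C * t ^ (34 * eta) * (2 * t ^ (6 * eta)) * (1 + Real.log t) * t ^ (-(3 / 10 ^ 7) : ℝ) := by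
          apply mul_le_mul_of_nonneg_right _ h7.le
          apply mul_le_mul _ e6 e7 (by positivity)
          apply mul_le_mul _ e3 (by positivity) (by positivity)
          exact mul_le_mul_of_nonneg_left e1 hC.le
      _ = 2 * C * (1 + Real.log t) * (t ^ (34 * eta) * t ^ (6 * eta) * t ^ (-(3 / 10 ^ 7) : ℝ)) := by
          ring
      _ = 2 * C * (1 + Real.log t) * t ^ (40 * eta - 3 / 10 ^ 7) := by
          rw [rp_mul ht, rp_mul ht]
          congr 2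
          ring
  · exact Rr_cases (P := fun n ↦ (n : ℝ) ≤ t ^ (4 / 25 : ℝ)) h.hrt h.hrt'
  · have : r0.Coprime 8 := by
      have h3 : r0.Coprime (2 ^ 3) := ((Nat.coprime_two_right).2 hodd).pow_right 3
      norm_num at h3
      exact h3
    exact Nat.Coprime.mul_right this h.hr0k
  · refine Rr_cases (P := fun n ↦ r0.Coprime n) ?_ ?_
    · intro j
      have h1 : m1.Coprime k1 := (Nat.Coprime.coprime_mul_left_right h.hkm).symm
      exact (h1.coprime_dvd_left hr0d).coprime_dvd_right (hrd j)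
    · intro j
      have h1 : Squarefree (r0 * ∏ j, r' j) := by rw [h.hrm]; exact h.hm1s
      exact (Nat.coprime_of_squarefree_mul h1).coprime_dvd_right
        (Finset.dvd_prod_of_mem r' (Finset.mem_univ j))
  · intro a ha
    rw [hA, mem_filter, mem_Icc] at ha
    obtain ⟨⟨ha1, -⟩, haa, han⟩ := ha
    have hak : a.Coprime (k1 * k2) := Nat.Coprime.coprime_mul_right_right han
    have ham : a.Coprime (m2 * m1) := Nat.Coprime.coprime_mul_left_right han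
    have ham1 : a.Coprime m1 := Nat.Coprime.coprime_mul_left_right ham
    have hak1 : a.Coprime k1 := Nat.Coprime.coprime_mul_right_right hak
    have hak2 : a.Coprime k2 := Nat.Coprime.coprime_mul_left_right hak
    have ha2 : a.Coprime 2 := hak2.coprime_dvd_right h2k2
    refine ⟨by omega, haa, (ham1.coprime_dvd_right hr0d).symm, ?_, ?_, ?_, jc_norm _ _⟩
    · refine Rr_cases (P := fun n ↦ n.Coprime a) ?_ ?_
      · intro j; exact (hak1.coprime_dvd_right (hrd j)).symm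
      · intro j; exact (ham1.coprime_dvd_right (hr'd j)).symm
    · have : a.Coprime 8 := by
        have h3 : a.Coprime (2 ^ 3) := ha2.pow_right 3
        norm_num at h3
        exact h3
      exact (Nat.Coprime.mul_right this hak2).symm
    · have c1 : IsCoprime (sg σ) (a : ℤ) := by
        unfold sg
        split_ifs
        · exact isCoprime_one_left
        · exact IsCoprime.neg_left isCoprime_one_left
      have c2 : IsCoprime (4 : ℤ) (a : ℤ) := by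
        have h3 : a.Coprime (2 ^ 2) := ha2.pow_right 2
        norm_num at h3
        exact (Nat.isCoprime_iff_coprime.2 h3).symm
      have c3 : IsCoprime ((m2 * m1 : ℕ) : ℤ) (a : ℤ) := (Nat.isCoprime_iff_coprime.2 ham).symm
      have c4 : IsCoprime (ivz a ((k1 * k2 : ℕ) : ℤ)) (a : ℤ) :=
        ivz_coprime (by omega) (Nat.isCoprime_iff_coprime.2 hak).symm
      exact (c1.mul_left (c2.mul_left c3)).mul_left c4
  · intro x
    push_cast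
    rw [hHp]
  · intro x
    have h7p : 0 < t ^ (7 * eta) := rp_pos ht _
    rw [norm_mul, Complex.norm_real, Real.norm_of_nonneg (by positivity)]
    exact mul_le_mul_of_nonneg_left (hHB x) (by positivity)
  · intro a j n
    exact Phi_per _ _ _ _ _ _ _ _ _
  · intro a j n
    exact Phi_norm (Real.one_le_rpow ht (by positivity)) _ _ _ _ _ _ _ _

/-- the residues `w_j` are units. -/
lemma w_coprime {t : ℝ} {q m1 m2 k1 k2 r0 X : ℕ} {r : Fin 4 → ℕ} {r' : Fin 7 → ℕ}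
    (h : Hyp t q m1 m2 k1 k2 r0 X r r') :
    (∀ i j, i ≠ j → (r i).Coprime (r j)) ∧ (∀ j, Squarefree (r j)) ∧
    ∀ j, IsCoprime (((m2 * m1 : ℕ) : ℤ) * ivz (r j) (k1 / r j : ℕ)) (r j : ℤ) := by
  have hsqf : Squarefree (∏ j, r j) := by rw [h.hrk]; exact h.hk1s
  have hrd : ∀ j, r j ∣ k1 := fun j ↦ by
    rw [← h.hrk]
    exact Finset.dvd_prod_of_mem r (Finset.mem_univ j)
  have hco : ∀ j, (r j).Coprime (∏ i ∈ univ.erase j, r i) := by
    intro j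
    apply Nat.coprime_of_squarefree_mul
    rw [Finset.mul_prod_erase _ _ (Finset.mem_univ j)]
    exact hsqf
  refine ⟨fun i j hij ↦ ?_, fun j ↦ h.hk1s.squarefree_of_dvd (hrd j), fun j ↦ ?_⟩
  · exact (hco i).coprime_dvd_right (Finset.dvd_prod_of_mem r (by
      rw [Finset.mem_erase]; exact ⟨hij.symm, Finset.mem_univ j⟩))
  · have h1 : IsCoprime ((m2 * m1 : ℕ) : ℤ) (r j : ℤ) :=
      Nat.isCoprime_iff_coprime.2 (h.hkm.coprime_dvd_left (hrd j)).symm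
    refine h1.mul_left (ivz_coprime (h.hr j) ?_)
    apply Nat.isCoprime_iff_coprime.2
    have h2 : k1 / r j = ∏ i ∈ univ.erase j, r i := by
      rw [← h.hrk, ← Finset.mul_prod_erase _ _ (Finset.mem_univ j),
        Nat.mul_div_cancel_left _ (h.hr j)]
    rw [h2]
    exact (hco j).symm

/-- the truncation error. -/
def Er (T : ℝ) (r : Fin 4 → ℕ) (w : Fin 4 → ℤ) (x : ℤ) : ℝ :=
  ‖∏ j, kfun (r j) (w j) x - ∏ j, ktr T (r j) (w j) x‖

lemma Er_congr (T : ℝ) (r : Fin 4 → ℕ) (w : Fin 4 → ℤ) {k1 : ℕ} (hrk : ∏ j, r j = k1) (x y : ℤ)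
    (h : x ≡ y [ZMOD k1]) : Er T r w x = Er T r w y := by
  unfold Er
  have h1 : ∀ j, x ≡ y [ZMOD (r j : ℤ)] := fun j ↦ by
    apply h.of_dvd
    rw [← hrk]
    exact_mod_cast Finset.dvd_prod_of_mem r (Finset.mem_univ j)
  have h2 : ∏ j, kfun (r j) (w j) x = ∏ j, kfun (r j) (w j) y :=
    Finset.prod_congr rfl fun j _ ↦ kfun_congr _ (h1 j)
  have h3 : ∏ j, ktr T (r j) (w j) x = ∏ j, ktr T (r j) (w j) y :=
    Finset.prod_congr rfl fun j _ ↦ ktr_congr _ _ (h1 j)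
  rw [h2, h3]

lemma err_part (ε : ℝ) (hε : 0 < ε) : ∃ C : ℝ, 0 < C ∧ ∀ {t : ℝ} {q m1 m2 k1 k2 r0 X : ℕ}
    {r : Fin 4 → ℕ} {r' : Fin 7 → ℕ} (_ : Hyp t q m1 m2 k1 k2 r0 X r r') (_ : q < X),
    ∑ c ∈ (Ioc q X).filter (fun c ↦ c.Coprime (k1 * k2 * (m2 * m1))),
      ((prs c).card : ℝ) * (2 * (Real.sqrt k1 * k2 * Er (t ^ (7 * eta)) r
        (fun j ↦ ((m2 * m1 : ℕ) : ℤ) * ivz (r j) (k1 / r j : ℕ)) ((c * k2 : ℕ) : ℤ) *
        (2 / (((k1 * k2 : ℕ) : ℝ) * Real.sqrt c)))) ≤ C * t ^ ε := by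
  obtain ⟨A, hA, hdiv⟩ := Pool.Agent.Work.MP_f2148a_nt.exists_card_divisors_le (ε / 2)
    (by positivity)
  refine ⟨32 * A ^ 2, by positivity, ?_⟩
  intro t q m1 m2 k1 k2 r0 X r r' h hqX
  have ht := h.ht
  have he : (0 : ℝ) < eta := by unfold eta; positivity
  have he' : eta = 7 / 10 ^ 9 := rfl
  have hk1 : 0 < k1 := h.hk1o.pos
  have hk2 := h.hk2
  have hk1' : (0 : ℝ) < k1 := by exact_mod_cast hk1
  have hk2' : (0 : ℝ) < k2 := by exact_mod_cast hk2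
  have hq' : (0 : ℝ) < q := by exact_mod_cast h.hq
  have hs1 : 0 < Real.sqrt k1 := Real.sqrt_pos.2 hk1'
  have hsq : 0 < Real.sqrt q := Real.sqrt_pos.2 hq'
  have hXt : (X : ℝ) ≤ t := h.hX.trans (t_le_of_exp ht (by rw [he']; norm_num))
  have hX0 : (0 : ℝ) ≤ X := Nat.cast_nonneg _
  set T : ℝ := t ^ (7 * eta) with hT
  have hTp : 0 < T := rp_pos ht _
  set w : Fin 4 → ℤ := fun j ↦ ((m2 * m1 : ℕ) : ℤ) * ivz (r j) (k1 / r j : ℕ) with hw
  obtain ⟨hco, hsqf, hwc⟩ := w_coprime h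
  have hE0 : ∀ x, 0 ≤ Er T r w x := fun x ↦ norm_nonneg _
  have htε : 0 < t ^ (ε / 2) := rp_pos ht _
  -- each term
  have hterm : ∀ c ∈ (Ioc q X).filter (fun c ↦ c.Coprime (k1 * k2 * (m2 * m1))),
      ((prs c).card : ℝ) * (2 * (Real.sqrt k1 * k2 * Er T r w ((c * k2 : ℕ) : ℤ) *
        (2 / (((k1 * k2 : ℕ) : ℝ) * Real.sqrt c)))) ≤
      (A * t ^ (ε / 2) * (4 / (Real.sqrt k1 * Real.sqrt q))) * Er T r w ((c * k2 : ℕ) : ℤ) := by
    intro c hc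
    rw [mem_filter, mem_Ioc] at hc
    have hc1 : 1 ≤ c := by have := h.hq; omega
    have hcX : (c : ℝ) ≤ t := le_trans (by exact_mod_cast hc.1.2) hXt
    have hc' : (0 : ℝ) < c := by exact_mod_cast hc1
    have hqc : (q : ℝ) ≤ c := by exact_mod_cast hc.1.1.le
    have h1 : ((prs c).card : ℝ) ≤ A * t ^ (ε / 2) := by
      refine (prs_card c).trans ((hdiv c hc1).trans ?_)
      apply mul_le_mul_of_nonneg_left _ (by linarith)
      exact Real.rpow_le_rpow hc'.le hcX (by positivity)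
    have hsc : 0 < Real.sqrt c := Real.sqrt_pos.2 hc'
    have hE := hE0 ((c * k2 : ℕ) : ℤ)
    have hk : (Real.sqrt k1) * Real.sqrt k1 = k1 := Real.mul_self_sqrt hk1'.le
    have h2 : Real.sqrt k1 * k2 * Er T r w ((c * k2 : ℕ) : ℤ) *
        (2 / (((k1 * k2 : ℕ) : ℝ) * Real.sqrt c)) ≤
        Er T r w ((c * k2 : ℕ) : ℤ) * (2 / (Real.sqrt k1 * Real.sqrt q)) := by
      have h3 : Real.sqrt k1 * k2 * Er T r w ((c * k2 : ℕ) : ℤ) *
          (2 / (((k1 * k2 : ℕ) : ℝ) * Real.sqrt c)) =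
          Er T r w ((c * k2 : ℕ) : ℤ) * (2 / (Real.sqrt k1 * Real.sqrt c)) := by
        rw [show ((k1 * k2 : ℕ) : ℝ) = Real.sqrt k1 * Real.sqrt k1 * k2 by push_cast; rw [hk]]
        field_simp
      rw [h3]
      apply mul_le_mul_of_nonneg_left _ hE
      apply div_le_div_of_nonneg_left (by norm_num) (by positivity)
      exact mul_le_mul_of_nonneg_left (Real.sqrt_le_sqrt hqc) hs1.le
    calc ((prs c).card : ℝ) * (2 * (Real.sqrt k1 * k2 * Er T r w ((c * k2 : ℕ) : ℤ) *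
        (2 / (((k1 * k2 : ℕ) : ℝ) * Real.sqrt c))))
        ≤ (A * t ^ (ε / 2)) * (2 * (Er T r w ((c * k2 : ℕ) : ℤ) *
          (2 / (Real.sqrt k1 * Real.sqrt q)))) := by
          apply mul_le_mul h1 _ (by positivity) (by positivity)
          linarith
      _ = _ := by ring
  refine (Finset.sum_le_sum hterm).trans ?_
  rw [← Finset.mul_sum]
  have hsub : ∑ c ∈ (Ioc q X).filter (fun c ↦ c.Coprime (k1 * k2 * (m2 * m1))),
      Er T r w ((c * k2 : ℕ) : ℤ) ≤ ∑ c ∈ Icc 1 X, Er T r w ((c * k2 : ℕ) : ℤ) := by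
    apply Finset.sum_le_sum_of_subset_of_nonneg
    · intro c hc
      rw [mem_filter, mem_Ioc] at hc
      rw [mem_Icc]
      omega
    · intro c _ _; exact hE0 _
  have hper := per_sum hk1 k2 h.h12.symm (Er T r w) hE0 (Er_congr T r w h.hrk) X
  have htr := ktrunc_error 4 r h.hr hco hsqf w hwc T hTp
  rw [h.hrk] at htr
  have hk1t : (k1 : ℝ) ≤ t := by
    have : k1 ≤ X := h.hkq.trans hqX.le
    exact le_trans (by exact_mod_cast this) hXt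
  have hdk : (k1.divisors.card : ℝ) ≤ A * t ^ (ε / 2) := by
    refine (hdiv k1 hk1).trans ?_
    apply mul_le_mul_of_nonneg_left _ (by linarith)
    exact Real.rpow_le_rpow hk1'.le hk1t (by positivity)
  have hXk : (X : ℝ) / k1 + 1 ≤ 2 * t ^ (6 * eta) := by
    have e4 : (X : ℝ) / k1 ≤ t ^ (6 * eta) := by
      rw [div_le_iff₀ hk1']; exact h.hXk
    have e5 : 1 ≤ t ^ (6 * eta) := Real.one_le_rpow ht (by positivity)
    linarith
  have h6 : 0 < t ^ (6 * eta) := rp_pos ht _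
  have hsum : ∑ c ∈ Icc 1 X, Er T r w ((c * k2 : ℕ) : ℤ) ≤
      2 * t ^ (6 * eta) * (4 * k1 * (A * t ^ (ε / 2)) / T) := by
    refine hper.trans ?_
    apply mul_le_mul hXk _ (Finset.sum_nonneg fun _ _ ↦ hE0 _) (by positivity)
    refine htr.trans ?_
    push_cast
    gcongr
  have hle : Real.sqrt k1 ≤ Real.sqrt q := Real.sqrt_le_sqrt (by exact_mod_cast h.hkq)
  calc (A * t ^ (ε / 2) * (4 / (Real.sqrt k1 * Real.sqrt q))) *
      ∑ c ∈ (Ioc q X).filter (fun c ↦ c.Coprime (k1 * k2 * (m2 * m1))),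
        Er T r w ((c * k2 : ℕ) : ℤ)
      ≤ (A * t ^ (ε / 2) * (4 / (Real.sqrt k1 * Real.sqrt q))) *
        (2 * t ^ (6 * eta) * (4 * k1 * (A * t ^ (ε / 2)) / T)) := by
        apply mul_le_mul_of_nonneg_left (hsub.trans hsum) (by positivity)
    _ = 32 * A ^ 2 * (k1 / (Real.sqrt k1 * Real.sqrt q)) * (t ^ (6 * eta) / T) *
        (t ^ (ε / 2) * t ^ (ε / 2)) := by
        field_simp
        ring
    _ ≤ 32 * A ^ 2 * 1 * 1 * t ^ ε := by
        have e1 : (k1 : ℝ) / (Real.sqrt k1 * Real.sqrt q) ≤ 1 := by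
          rw [div_le_one (by positivity)]
          have hk : (Real.sqrt k1) * Real.sqrt k1 = k1 := Real.mul_self_sqrt hk1'.le
          nlinarith
        have e2 : t ^ (6 * eta) / T ≤ 1 := by
          rw [div_le_one hTp]
          exact rp_le ht (by linarith)
        have e3 : t ^ (ε / 2) * t ^ (ε / 2) = t ^ ε := by
          rw [rp_mul ht]; congr 1; ring
        rw [e3]
        have : 0 < t ^ ε := rp_pos ht _
        gcongr
    _ = 32 * A ^ 2 * t ^ ε := by ring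

/-- the bound for a fixed part of the modulus. -/
theorem fixK (ε : ℝ) (hε : 0 < ε) : ∃ C : ℝ, 0 < C ∧ ∀ {t : ℝ} {q m1 m2 k1 k2 r0 X : ℕ}
    {r : Fin 4 → ℕ} {r' : Fin 7 → ℕ} (_ : Hyp t q m1 m2 k1 k2 r0 X r r') (V : ℕ → ℂ)
    (_ : ∀ a a' : ℕ, a ≡ a' [MOD k2] → V a = V a') (_ : ∀ a, ‖V a‖ ≤ k2) (y s : ℝ)
    (_ : y ∈ Set.Ico (1 / ((m2 * m1 : ℕ) : ℝ)) (2 / ((m2 * m1 : ℕ) : ℝ))),
    ‖∑ c ∈ (Ioc q X).filter (fun c ↦ c.Coprime (k1 * k2 * (m2 * m1))),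
      salS c ((m2 * m1 : ℕ) : ℤ) ((k1 * k2 : ℕ) : ℤ) *
        kloo k1 ((m2 * m1 : ℕ) : ℤ) ((c * k2 : ℕ) : ℤ) * V c / ((c * (k1 * k2) : ℕ) : ℂ) *
        psW (m2 * m1) y s ((c * (k1 * k2) : ℕ) : ℝ)‖ ≤ C * t ^ ε := by
  obtain ⟨C1, hC1, hM⟩ := main_part
  obtain ⟨C2, hC2, hE⟩ := err_part ε hε
  refine ⟨C2 + 2 * (C1 * (1 + 1 / ε)), by positivity, ?_⟩
  intro t q m1 m2 k1 k2 r0 X r r' h V hV hVB y s hy
  have ht := h.ht
  have htε : 0 < t ^ ε := rp_pos ht _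
  rcases Nat.lt_or_ge q X with hqX | hqX
  swap
  · rw [Finset.Ioc_eq_empty (by omega), Finset.filter_empty, Finset.sum_empty, norm_zero]
    positivity
  have hk1 : 0 < k1 := h.hk1o.pos
  have hk2 := h.hk2
  have hm1 : 0 < m1 := h.hm1o.pos
  have hm2 : 0 < m2 := by rcases h.hm2 with e | e <;> omega
  have hm : 0 < m2 * m1 := Nat.mul_pos hm2 hm1
  have hk0 : 0 < k1 * k2 := Nat.mul_pos hk1 hk2
  have h2k2 : 2 ∣ k2 := (by norm_num : 2 ∣ 4).trans h.h4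
  choose H hHp hHB hH0 hHf using fun σ : Bool ↦ jac_fac k1 k2 m1 m2 h.hk1o h.hm1o h.hm2 h.h4 hk2 V
    hV k2 hVB (sg σ * (2 * ((m2 * m1 : ℕ) : ℤ)))
  obtain ⟨hco, hsqf, hwc⟩ := w_coprime h
  set w : Fin 4 → ℤ := fun j ↦ ((m2 * m1 : ℕ) : ℤ) * ivz (r j) (k1 / r j : ℕ) with hw
  set T : ℝ := t ^ (7 * eta) with hT
  set S := (Ioc q X).filter (fun c ↦ c.Coprime (k1 * k2 * (m2 * m1))) with hS
  have hterm : ∀ c ∈ S, salS c ((m2 * m1 : ℕ) : ℤ) ((k1 * k2 : ℕ) : ℤ) *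
        kloo k1 ((m2 * m1 : ℕ) : ℤ) ((c * k2 : ℕ) : ℤ) * V c / ((c * (k1 * k2) : ℕ) : ℂ) *
        psW (m2 * m1) y s ((c * (k1 * k2) : ℕ) : ℝ) =
      ∑ σ : Bool, ∑ x ∈ prs c, Fm T m1 m2 k1 k2 r w (H σ) y s σ x.1 x.2 +
      ∑ x ∈ prs c, ∑ σ : Bool, ((Real.sqrt k1 : ℝ) : ℂ) *
        (H σ c * jc c k1 * jc c m1) *
        cj σ (∏ j, kfun (r j) (w j) ((c * k2 : ℕ) : ℤ) - ∏ j, ktr T (r j) (w j) ((c * k2 : ℕ) : ℤ)) *
        cj σ (eI x.1 (4 * ((m2 * m1 : ℕ) : ℤ)) (((k1 * k2 : ℕ) : ℤ) * x.2)) *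
        wgt (m2 * m1) (k1 * k2) y s σ c := by
    intro c hc
    rw [hS, mem_filter, mem_Ioc] at hc
    obtain ⟨⟨hc1, hc2⟩, hcn⟩ := hc
    have hck : c.Coprime (k1 * k2) := Nat.Coprime.coprime_mul_right_right hcn
    have hcm : c.Coprime (m2 * m1) := Nat.Coprime.coprime_mul_left_right hcn
    have hck1 : c.Coprime k1 := Nat.Coprime.coprime_mul_right_right hck
    have hck2 : c.Coprime k2 := Nat.Coprime.coprime_mul_left_right hck
    have hodd : Odd c := (Nat.coprime_two_right).1 (hck2.coprime_dvd_right h2k2)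
    have hq := h.hq
    rw [term_eq hk1 hk2 h.h12 V H r h.hr hco h.hrk hodd (by omega) hck1 hck2 hcm
      (fun σ ↦ hHf σ c (by omega) hck2) y s]
    rw [Finset.sum_comm (s := (univ : Finset Bool)) (t := prs c), ← Finset.sum_add_distrib]
    refine Finset.sum_congr rfl fun x hx ↦ ?_
    rw [← Finset.sum_add_distrib]
    refine Finset.sum_congr rfl fun σ _ ↦ ?_
    have hxc : x.1 * x.2 = c := by
      unfold prs at hx
      rw [mem_filter, Nat.mem_divisorsAntidiagonal] at hx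
      exact hx.1.1
    unfold Fm
    rw [hxc, cj_sub]
    unfold jc
    ring
  rw [Finset.sum_congr rfl hterm, Finset.sum_add_distrib]
  have hA : ‖∑ c ∈ S, ∑ σ : Bool, ∑ x ∈ prs c, Fm T m1 m2 k1 k2 r w (H σ) y s σ x.1 x.2‖ ≤
      2 * (C1 * (1 + 1 / ε)) * t ^ ε := by
    rw [Finset.sum_comm]
    have hlog : 1 + Real.log t ≤ (1 + 1 / ε) * t ^ ε := by
      have h1 := Real.log_le_rpow_div (by linarith : 0 ≤ t) hε
      have h2 : 1 ≤ t ^ ε := Real.one_le_rpow ht hε.le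
      have : t ^ ε / ε = 1 / ε * t ^ ε := by ring
      nlinarith
    have hlog0 : 0 ≤ Real.log t := Real.log_nonneg ht
    have hsmall : t ^ (40 * eta - 3 / 10 ^ 7) ≤ 1 := by
      apply Real.rpow_le_one_of_one_le_of_nonpos ht
      unfold eta; norm_num
    have hsmall0 : 0 < t ^ (40 * eta - 3 / 10 ^ 7) := rp_pos ht _
    have hσ : ∀ σ : Bool, ‖∑ c ∈ S, ∑ x ∈ prs c, Fm T m1 m2 k1 k2 r w (H σ) y s σ x.1 x.2‖ ≤
        C1 * (1 + 1 / ε) * t ^ ε := by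
      intro σ
      refine (hM h hqX w (H σ) (hHp σ) (hHB σ) (hH0 σ) y s hy σ).trans ?_
      calc C1 * (1 + Real.log t) * t ^ (40 * eta - 3 / 10 ^ 7)
          ≤ C1 * ((1 + 1 / ε) * t ^ ε) * 1 := by gcongr
        _ = _ := by ring
    calc ‖∑ σ : Bool, ∑ c ∈ S, ∑ x ∈ prs c, Fm T m1 m2 k1 k2 r w (H σ) y s σ x.1 x.2‖
        ≤ ∑ σ : Bool, ‖∑ c ∈ S, ∑ x ∈ prs c, Fm T m1 m2 k1 k2 r w (H σ) y s σ x.1 x.2‖ :=
          norm_sum_le _ _
      _ ≤ ∑ σ : Bool, C1 * (1 + 1 / ε) * t ^ ε := Finset.sum_le_sum fun σ _ ↦ hσ σ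
      _ = 2 * (C1 * (1 + 1 / ε)) * t ^ ε := by
          rw [Fintype.sum_bool]; ring
  have hB : ‖∑ c ∈ S, ∑ x ∈ prs c, ∑ σ : Bool, ((Real.sqrt k1 : ℝ) : ℂ) *
        (H σ c * jc c k1 * jc c m1) *
        cj σ (∏ j, kfun (r j) (w j) ((c * k2 : ℕ) : ℤ) - ∏ j, ktr T (r j) (w j) ((c * k2 : ℕ) : ℤ)) *
        cj σ (eI x.1 (4 * ((m2 * m1 : ℕ) : ℤ)) (((k1 * k2 : ℕ) : ℤ) * x.2)) *
        wgt (m2 * m1) (k1 * k2) y s σ c‖ ≤ C2 * t ^ ε := by
    refine le_trans ?_ (hE h hqX)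
    refine (norm_sum_le _ _).trans (Finset.sum_le_sum fun c hc ↦ ?_)
    rw [hS, mem_filter, mem_Ioc] at hc
    have hc0 : (0 : ℝ) < c := by
      have : 0 < c := by omega
      exact_mod_cast this
    rw [← nsmul_eq_mul, ← Finset.sum_const]
    refine (norm_sum_le _ _).trans (Finset.sum_le_sum fun x hx ↦ ?_)
    refine (norm_sum_le _ _).trans ?_
    have hone : ∀ σ : Bool, ‖((Real.sqrt k1 : ℝ) : ℂ) *
        (H σ c * jc c k1 * jc c m1) *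
        cj σ (∏ j, kfun (r j) (w j) ((c * k2 : ℕ) : ℤ) - ∏ j, ktr T (r j) (w j) ((c * k2 : ℕ) : ℤ)) *
        cj σ (eI x.1 (4 * ((m2 * m1 : ℕ) : ℤ)) (((k1 * k2 : ℕ) : ℤ) * x.2)) *
        wgt (m2 * m1) (k1 * k2) y s σ c‖ ≤
        Real.sqrt k1 * k2 * Er T r w ((c * k2 : ℕ) : ℤ) *
          (2 / (((k1 * k2 : ℕ) : ℝ) * Real.sqrt c)) := by
      intro σ
      rw [norm_mul, norm_mul, norm_mul, norm_mul, norm_mul, norm_mul, cj_norm, cj_norm, norm_eI,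
        mul_one, Complex.norm_real, Real.norm_of_nonneg (Real.sqrt_nonneg _)]
      have e1 : ‖H σ (c : ℤ)‖ * ‖jc (c : ℤ) k1‖ * ‖jc (c : ℤ) m1‖ ≤ k2 := by
        calc ‖H σ (c : ℤ)‖ * ‖jc (c : ℤ) k1‖ * ‖jc (c : ℤ) m1‖ ≤ k2 * 1 * 1 := by
              apply mul_le_mul _ (jc_norm _ _) (norm_nonneg _) (by positivity)
              exact mul_le_mul (hHB σ _) (jc_norm _ _) (norm_nonneg _) (by positivity)
          _ = k2 := by ring
      have e2 := norm_wgt_le (m2 * m1) (k1 * k2) hm hk0 hy s σ hc0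
      apply mul_le_mul _ e2 (norm_nonneg _)
      · unfold Er; positivity
      · unfold Er
        gcongr
    calc ∑ σ : Bool, _ ≤ ∑ σ : Bool, Real.sqrt k1 * k2 * Er T r w ((c * k2 : ℕ) : ℤ) *
          (2 / (((k1 * k2 : ℕ) : ℝ) * Real.sqrt c)) := Finset.sum_le_sum fun σ _ ↦ hone σ
      _ = _ := by rw [Fintype.sum_bool]; ring
  calc _ ≤ _ := norm_add_le _ _
    _ ≤ 2 * (C1 * (1 + 1 / ε)) * t ^ ε + C2 * t ^ ε := add_le_add hA hB
    _ = _ := by ring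

end

end Pool.Agent.Work.MP_af11aa_nt.W2
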