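import Mathlib

/-!
W2/Pack: packing the prime factors of a number into few factors of bounded size.
-/

set_option autoImplicit false

namespace Pool.Agent.Work.MP_af11aa_nt.W2

open Finset

/-- the largest divisor `d ≤ Y` of `n > Y` satisfies `d ^ 2 > Y`. -/
theorem large_div (Y : ℝ) (n : ℕ) (hn : 0 < n) (hp : ∀ l : ℕ, l.Prime → l ∣ n → (l : ℝ) ≤ Y)
    (hY : 1 ≤ Y) (hYn : Y < n) : ∃ d : ℕ, d ∣ n ∧ (d : ℝ) ≤ Y ∧ Y < (d : ℝ) ^ 2 := by
  classical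
  set S := n.divisors.filter (fun d : ℕ ↦ (d : ℝ) ≤ Y) with hS
  have hne : S.Nonempty := ⟨1, by
    rw [hS, mem_filter, Nat.mem_divisors]
    exact ⟨⟨one_dvd _, hn.ne'⟩, by simpa using hY⟩⟩
  obtain ⟨d, hd, hmax⟩ := S.exists_max_image id hne
  rw [hS, mem_filter, Nat.mem_divisors] at hd
  obtain ⟨⟨hdn, -⟩, hdY⟩ := hd
  refine ⟨d, hdn, hdY, ?_⟩
  obtain ⟨m, hm⟩ := hdn
  have hd0 : 0 < d := Nat.pos_of_ne_zero (by rintro rfl; omega)
  have hm1 : m ≠ 1 := by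
    rintro rfl
    rw [mul_one] at hm
    rw [hm] at hYn
    linarith
  obtain ⟨l, hl, hlm⟩ := Nat.exists_prime_and_dvd hm1
  have hln : l ∣ n := hlm.trans ⟨d, by rw [hm]; ring⟩
  have hld : (l : ℝ) ≤ d := by
    have h1 : l ∈ S := by
      rw [hS, mem_filter, Nat.mem_divisors]
      exact ⟨⟨hln, hn.ne'⟩, hp l hl hln⟩
    have h2 : l ≤ d := hmax l h1
    exact_mod_cast h2
  have hdl : Y < (d : ℝ) * l := by
    by_contra hcon
    push Not at hcon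
    have h1 : d * l ∈ S := by
      rw [hS, mem_filter, Nat.mem_divisors]
      refine ⟨⟨?_, hn.ne'⟩, by push_cast; exact hcon⟩
      rw [hm]; exact mul_dvd_mul_left d hlm
    have h2 : d * l ≤ d := hmax _ h1
    have h3 := hl.two_le
    nlinarith
  have hd' : (0 : ℝ) < d := by exact_mod_cast hd0
  nlinarith

/-- `n ^ 2 ≤ Y ^ (J + 2)` is a product of `J + 1` factors, each at most `Y`. -/
theorem pack (Y : ℝ) (hY : 1 ≤ Y) (J : ℕ) : ∀ n : ℕ, 0 < n →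
    (∀ l : ℕ, l.Prime → l ∣ n → (l : ℝ) ≤ Y) → (n : ℝ) ^ 2 ≤ Y ^ (J + 2) →
    ∃ r : Fin (J + 1) → ℕ, ∏ j, r j = n ∧ (∀ j, 0 < r j) ∧ ∀ j, (r j : ℝ) ≤ Y := by
  induction J with
  | zero =>
    intro n hn _ h
    refine ⟨fun _ ↦ n, by simp, fun _ ↦ hn, fun _ ↦ ?_⟩
    have h1 : (n : ℝ) ^ 2 ≤ Y ^ 2 := by simpa using h
    exact le_of_sq_le_sq h1 (by linarith)
  | succ J ih =>
    intro n hn hp h
    rcases le_or_gt (n : ℝ) Y with h1 | h1
    · refine ⟨Fin.cons n (fun _ ↦ 1), ?_, ?_, ?_⟩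
      · rw [Fin.prod_univ_succ]; simp
      · intro j
        refine Fin.cases ?_ (fun i ↦ ?_) j
        · simpa using hn
        · simp
      · intro j
        refine Fin.cases ?_ (fun i ↦ ?_) j
        · rw [Fin.cons_zero]; exact h1
        · rw [Fin.cons_succ]; push_cast; exact hY
    · obtain ⟨d, hdn, hdY, hd2⟩ := large_div Y n hn hp hY h1
      obtain ⟨m, hm⟩ := hdn
      have hd0 : 0 < d := Nat.pos_of_ne_zero (by rintro rfl; omega)
      have hm0 : 0 < m := Nat.pos_of_ne_zero (by rintro rfl; omega)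
      have hm2 : (m : ℝ) ^ 2 ≤ Y ^ (J + 2) := by
        have h2 : (n : ℝ) = d * m := by exact_mod_cast hm
        rw [h2, mul_pow] at h
        have h3 : Y * (m : ℝ) ^ 2 ≤ Y * Y ^ (J + 2) := by
          calc Y * (m : ℝ) ^ 2 ≤ (d : ℝ) ^ 2 * (m : ℝ) ^ 2 :=
                mul_le_mul_of_nonneg_right hd2.le (by positivity)
            _ ≤ Y ^ (J + 1 + 2) := h
            _ = Y * Y ^ (J + 2) := by ring
        exact le_of_mul_le_mul_left h3 (by linarith)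
      obtain ⟨r, hr1, hr2, hr3⟩ := ih m hm0
        (fun l hl hlm ↦ hp l hl (hlm.trans ⟨d, by rw [hm]; ring⟩)) hm2
      refine ⟨Fin.cons d r, ?_, ?_, ?_⟩
      · rw [Fin.prod_univ_succ]
        simp only [Fin.cons_zero, Fin.cons_succ]
        rw [hr1, hm]
      · intro j
        refine Fin.cases ?_ (fun i ↦ ?_) j
        · simpa using hd0
        · simpa using hr2 i
      · intro j
        refine Fin.cases ?_ (fun i ↦ ?_) j
        · rw [Fin.cons_zero]; exact hdY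
        · rw [Fin.cons_succ]; exact hr3 i

/-- a divisor between `Z` and `Y`, if `Z ^ 2 ≤ Y`. -/
theorem mid_div (Y Z : ℝ) (n : ℕ) (hn : 0 < n) (hp : ∀ l : ℕ, l.Prime → l ∣ n → (l : ℝ) ≤ Y)
    (hZ : 1 ≤ Z) (hZY : Z ^ 2 ≤ Y) (hZn : Z ≤ n) : ∃ d : ℕ, d ∣ n ∧ Z ≤ d ∧ (d : ℝ) ≤ Y := by
  classical
  have hex : ∃ d : ℕ, d ∣ n ∧ Z ≤ (d : ℝ) := ⟨n, dvd_rfl, hZn⟩
  obtain ⟨d, hd, hmin⟩ : ∃ d : ℕ, (d ∣ n ∧ Z ≤ (d : ℝ)) ∧ ∀ m < d, ¬ (m ∣ n ∧ Z ≤ (m : ℝ)) :=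
    ⟨Nat.find hex, Nat.find_spec hex, fun m hm ↦ Nat.find_min hex hm⟩
  refine ⟨d, hd.1, hd.2, ?_⟩
  rcases Nat.lt_or_ge 1 d with h | h
  · obtain ⟨l, hl, hld⟩ := Nat.exists_prime_and_dvd (show d ≠ 1 by omega)
    obtain ⟨e, he⟩ := hld
    have he0 : 0 < e := by
      rcases Nat.eq_zero_or_pos e with h0 | h0
      · rw [h0] at he; omega
      · exact h0
    have hed : e < d := by rw [he]; nlinarith [hl.two_le]
    have h2 : e ∣ n := (Dvd.intro_left l he.symm).trans hd.1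
    have h3 : (e : ℝ) < Z := by
      by_contra hcon
      exact hmin e hed ⟨h2, not_lt.1 hcon⟩
    have hln : l ∣ n := (Dvd.intro e he.symm).trans hd.1
    have hlY : (l : ℝ) ≤ Y := hp l hl hln
    rcases lt_or_ge (l : ℝ) Z with h4 | h4
    · have hl0 : (0 : ℝ) ≤ l := Nat.cast_nonneg _
      have he0' : (0 : ℝ) ≤ e := Nat.cast_nonneg _
      rw [he]
      push_cast
      nlinarith
    · have h5 : ¬ l < d := fun h5 ↦ hmin l h5 ⟨hln, h4⟩
      have h6 : d ≤ l := by omega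
      exact le_trans (by exact_mod_cast h6) hlY
  · have h1 : (d : ℝ) ≤ 1 := by exact_mod_cast h
    nlinarith

end Pool.Agent.Work.MP_af11aa_nt.W2
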