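import Mathlib
import Pool.Agent.Work.MP_af11aa_nt.W2.FixK2
import Pool.Agent.Work.MP_af11aa_nt.W2.Pack
import Pool.Agent.Work.MP_af11aa_nt.W.PerK

set_option autoImplicit false

namespace Pool.Agent.Work.MP_af11aa_nt.W2

open Finset ComplexConjugate Pool.Agent.Work.MP_af11aa_nt Pool.Agent.Work.MP_af11aa_nt.W

noncomputable section

/-- the global parameters: `R = q m2 m1` is squarefree without large prime factors. -/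
structure Gl (R p q m1 m2 : ℕ) : Prop where
  hR : Squarefree R
  hRq : R = q * (m2 * m1)
  hp : p.Prime
  hpt : (p : ℝ) ≤ (R : ℝ) ^ eta
  hsm : ∀ l : ℕ, l.Prime → l ∣ R → (l : ℝ) ≤ (R : ℝ) ^ (4 / 25 : ℝ)
  hqc : q.Coprime (6 * p)
  hq1 : (R : ℝ) ^ (1 / 3 - 2 * eta) ≤ q
  hq2 : (q : ℝ) ≤ (R : ℝ) ^ (1 / 3 : ℝ)
  hm2 : m2 = 1 ∨ m2 = 2
  hm1 : Odd m1
  hbig : (192 : ℝ) ≤ (R : ℝ) ^ eta

namespace Gl

variable {R p q m1 m2 : ℕ} (G : Gl R p q m1 m2)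

include G

lemma R_pos : 0 < R := Nat.pos_of_ne_zero G.hR.ne_zero

lemma one_le : (1 : ℝ) ≤ R := by exact_mod_cast G.R_pos

lemma q_pos : 0 < q := by
  have h := G.R_pos
  rw [G.hRq] at h
  exact Nat.pos_of_ne_zero fun h0 ↦ by rw [h0, zero_mul] at h; omega

lemma m_pos : 0 < m2 * m1 := by
  have h := G.R_pos
  rw [G.hRq] at h
  exact Nat.pos_of_ne_zero fun h0 ↦ by rw [h0, mul_zero] at h; omega

lemma Rm : (R : ℝ) = q * ((m2 * m1 : ℕ) : ℝ) := by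
  have := G.hRq
  exact_mod_cast this

lemma qm_coprime : q.Coprime (m2 * m1) := by
  apply Nat.coprime_of_squarefree_mul
  rw [← G.hRq]; exact G.hR

/-- `m / q² ≤ t^{6 η}`. -/
lemma m_le : ((m2 * m1 : ℕ) : ℝ) ≤ (R : ℝ) ^ (6 * eta) * ((q : ℝ) * q) := by
  have hq : (0 : ℝ) < q := by exact_mod_cast G.q_pos
  have ht := G.one_le
  have hz : 0 < (R : ℝ) ^ (1 / 3 - 2 * eta) := rp_pos ht _
  have h1 : (R : ℝ) ^ (1 - 6 * eta) ≤ (q : ℝ) * q * q := by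
    calc (R : ℝ) ^ (1 - 6 * eta) = (R : ℝ) ^ (1 / 3 - 2 * eta) * (R : ℝ) ^ (1 / 3 - 2 * eta) *
          (R : ℝ) ^ (1 / 3 - 2 * eta) := by
          rw [rp_mul ht, rp_mul ht]; congr 1; ring
      _ ≤ _ := by have := G.hq1; gcongr
  have h2 : (R : ℝ) = (R : ℝ) ^ (1 - 6 * eta) * (R : ℝ) ^ (6 * eta) := by
    rw [rp_mul ht, sub_add_cancel, Real.rpow_one]
  have h6 : 0 < (R : ℝ) ^ (6 * eta) := rp_pos ht _
  have h3 : (q : ℝ) * ((m2 * m1 : ℕ) : ℝ) ≤ q * ((R : ℝ) ^ (6 * eta) * ((q : ℝ) * q)) := by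
    rw [← G.Rm]
    calc (R : ℝ) = (R : ℝ) ^ (1 - 6 * eta) * (R : ℝ) ^ (6 * eta) := h2
      _ ≤ ((q : ℝ) * q * q) * (R : ℝ) ^ (6 * eta) := by gcongr
      _ = _ := by ring
  exact le_of_mul_le_mul_left h3 hq

lemma m_upper : ((m2 * m1 : ℕ) : ℝ) ≤ (R : ℝ) ^ (2 / 3 + 2 * eta) := by
  have ht := G.one_le
  have hq : (0 : ℝ) < q := by exact_mod_cast G.q_pos
  have hz : 0 < (R : ℝ) ^ (1 / 3 - 2 * eta) := rp_pos ht _
  have h1 : (R : ℝ) ^ (1 / 3 - 2 * eta) * ((m2 * m1 : ℕ) : ℝ) ≤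
      (R : ℝ) ^ (1 / 3 - 2 * eta) * (R : ℝ) ^ (2 / 3 + 2 * eta) := by
    rw [rp_mul ht]
    have e : 1 / 3 - 2 * eta + (2 / 3 + 2 * eta) = 1 := by ring
    rw [e, Real.rpow_one]
    have hm : (0 : ℝ) ≤ ((m2 * m1 : ℕ) : ℝ) := Nat.cast_nonneg _
    exact (mul_le_mul_of_nonneg_right G.hq1 hm).trans_eq G.Rm.symm
  exact le_of_mul_le_mul_left h1 hz

lemma m_lower : (R : ℝ) ^ (2 / 3 : ℝ) ≤ ((m2 * m1 : ℕ) : ℝ) := by
  have ht := G.one_le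
  have hq : (0 : ℝ) < q := by exact_mod_cast G.q_pos
  have hz : 0 < (R : ℝ) ^ (1 / 3 : ℝ) := rp_pos ht _
  have hm : (0 : ℝ) < ((m2 * m1 : ℕ) : ℝ) := by exact_mod_cast G.m_pos
  have h1 : (R : ℝ) ^ (1 / 3 : ℝ) * (R : ℝ) ^ (2 / 3 : ℝ) ≤
      (R : ℝ) ^ (1 / 3 : ℝ) * ((m2 * m1 : ℕ) : ℝ) := by
    rw [rp_mul ht]
    have e : (1 / 3 : ℝ) + 2 / 3 = 1 := by norm_num
    rw [e, Real.rpow_one]
    exact G.Rm.trans_le (mul_le_mul_of_nonneg_right G.hq2 hm.le)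
  exact le_of_mul_le_mul_left h1 hz

lemma m_le_R : ((m2 * m1 : ℕ) : ℝ) ≤ R := by
  have hq : (1 : ℝ) ≤ q := by exact_mod_cast G.q_pos
  have hm : (0 : ℝ) ≤ ((m2 * m1 : ℕ) : ℝ) := Nat.cast_nonneg _
  rw [G.Rm]
  nlinarith

end Gl

end

end Pool.Agent.Work.MP_af11aa_nt.W2
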