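import Mathlib
import Pool.Agent.Work.MP_af11aa_nt.W2.PerK
import Pool.Agent.Work.MP_af11aa_nt.W.PerK2

set_option autoImplicit false

namespace Pool.Agent.Work.MP_af11aa_nt.W2

open Finset ComplexConjugate Pool.Agent.Work.MP_af11aa_nt Pool.Agent.Work.MP_af11aa_nt.W

noncomputable section

/-- the choice of the chunks. -/
lemma choose_chunks {R p q m1 m2 : ℕ} (G : Gl R p q m1 m2) {k1 k2 : ℕ} (hk1q : k1 ∣ q)
    (hk1 : 0 < k1) (hk2 : 0 < k2) (hD : ((8 * k2 : ℕ) : ℝ) ≤ (R : ℝ) ^ (14 * eta)) :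
    ∃ (r0 : ℕ) (r : Fin 4 → ℕ) (r' : Fin 7 → ℕ),
      (∀ j, 0 < r j) ∧ ∏ j, r j = k1 ∧ (∀ j, (r j : ℝ) ≤ (R : ℝ) ^ (4 / 25 : ℝ)) ∧
      (∀ j, 0 < r' j) ∧ r0 * ∏ j, r' j = m1 ∧ (∀ j, (r' j : ℝ) ≤ (R : ℝ) ^ (4 / 25 : ℝ)) ∧
      (R : ℝ) ^ (1 / 30 : ℝ) ≤ r0 ∧ (r0 : ℝ) ≤ (R : ℝ) ^ (4 / 25 : ℝ) ∧ r0.Coprime k2 := by
  have ht := G.one_le
  have he : (0 : ℝ) < eta := by unfold eta; positivity
  have he' : eta = 7 / 10 ^ 9 := rfl
  have hm1 : 0 < m1 := G.hm1.pos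
  have hm1R : m1 ∣ R := by rw [G.hRq]; exact ((dvd_mul_left m1 m2)).mul_left q
  have hqR : q ∣ R := by rw [G.hRq]; exact dvd_mul_right _ _
  have hm1s : Squarefree m1 := G.hR.squarefree_of_dvd hm1R
  have hY : (1 : ℝ) ≤ (R : ℝ) ^ (4 / 25 : ℝ) := Real.one_le_rpow ht (by norm_num)
  have hZ24 : (1 : ℝ) ≤ (R : ℝ) ^ (1 / 30 : ℝ) := Real.one_le_rpow ht (by norm_num)
  -- chunks of `k1`
  obtain ⟨r, hr1, hr2, hr3⟩ := pack ((R : ℝ) ^ (4 / 25 : ℝ)) hY 3 k1 hk1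
    (fun l hl hd ↦ G.hsm l hl (hd.trans (hk1q.trans hqR))) (by
      have h1 : (k1 : ℝ) ≤ (R : ℝ) ^ (1 / 3 : ℝ) :=
        le_trans (by exact_mod_cast Nat.le_of_dvd G.q_pos hk1q) G.hq2
      calc (k1 : ℝ) ^ 2 ≤ ((R : ℝ) ^ (1 / 3 : ℝ)) ^ 2 := by gcongr
        _ ≤ ((R : ℝ) ^ (4 / 25 : ℝ)) ^ (3 + 2) := by
            rw [rp_pow ht, rp_pow ht]
            apply rp_le ht
            norm_num)
  -- the prime to `k2` part
  set d := m1.gcd k2 with hd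
  have hd0 : 0 < d := Nat.gcd_pos_of_pos_left _ hm1
  have hdm : d ∣ m1 := Nat.gcd_dvd_left _ _
  set n0 := m1 / d with hn0
  have hn0d : n0 * d = m1 := Nat.div_mul_cancel hdm
  have hn0p : 0 < n0 := Nat.div_pos (Nat.le_of_dvd hm1 hdm) hd0
  have hn0m : n0 ∣ m1 := ⟨d, hn0d.symm⟩
  have hcn : n0.Coprime k2 := by
    have h1 : n0.Coprime d := by
      apply Nat.coprime_of_squarefree_mul
      rw [hn0d]; exact hm1s
    by_contra hnc
    obtain ⟨l, hl, h3, h5⟩ := Nat.Prime.not_coprime_iff_dvd.1 hnc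
    have h6 : l ∣ d := Nat.dvd_gcd (h3.trans hn0m) h5
    exact Nat.not_coprime_of_dvd_of_dvd hl.one_lt h3 h6 h1
  have hm2' : ((m2 * m1 : ℕ) : ℝ) ≤ 2 * m1 := by
    have : m2 * m1 ≤ 2 * m1 := by
      apply Nat.mul_le_mul_right
      rcases G.hm2 with h | h <;> omega
    exact_mod_cast this
  have hdk : (d : ℝ) ≤ k2 := by
    exact_mod_cast Nat.le_of_dvd hk2 (Nat.gcd_dvd_right _ _)
  have hn0Z : (R : ℝ) ^ (1 / 30 : ℝ) ≤ n0 := by
    have h1 : (R : ℝ) ^ (2 / 3 : ℝ) ≤ 2 * ((n0 : ℝ) * d) := by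
      have : ((n0 : ℝ) * d) = m1 := by exact_mod_cast hn0d
      rw [this]
      exact G.m_lower.trans hm2'
    have h2 : (R : ℝ) ^ (2 / 3 : ℝ) ≤ (n0 : ℝ) * (R : ℝ) ^ (14 * eta) := by
      push_cast at hD
      have h3 : (2 : ℝ) * d ≤ (R : ℝ) ^ (14 * eta) := by
        have : (0 : ℝ) ≤ k2 := Nat.cast_nonneg _
        linarith
      calc (R : ℝ) ^ (2 / 3 : ℝ) ≤ 2 * ((n0 : ℝ) * d) := h1
        _ = (n0 : ℝ) * (2 * d) := by ring
        _ ≤ _ := by gcongr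
    have h14 : 0 < (R : ℝ) ^ (14 * eta) := rp_pos ht _
    refine le_of_mul_le_mul_right ?_ h14
    refine le_trans ?_ h2
    rw [rp_mul ht]
    apply rp_le ht
    rw [he']; norm_num
  obtain ⟨r0, hr0d, hr01, hr02⟩ := mid_div ((R : ℝ) ^ (4 / 25 : ℝ)) ((R : ℝ) ^ (1 / 30 : ℝ)) n0 hn0p
    (fun l hl hdl ↦ G.hsm l hl (hdl.trans (hn0m.trans hm1R))) hZ24 (by
      rw [rp_pow ht]
      apply rp_le ht
      norm_num) hn0Z
  have hr0m : r0 ∣ m1 := hr0d.trans hn0m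
  have hr0p : 0 < r0 := Nat.pos_of_dvd_of_pos hr0m hm1
  obtain ⟨m1', hm1'⟩ := hr0m
  have hm1'p : 0 < m1' := by
    rcases Nat.eq_zero_or_pos m1' with h | h
    · rw [h, mul_zero] at hm1'; omega
    · exact h
  have hm1'd : m1' ∣ m1 := ⟨r0, by rw [hm1']; ring⟩
  obtain ⟨r', hr1', hr2', hr3'⟩ := pack ((R : ℝ) ^ (4 / 25 : ℝ)) hY 6 m1' hm1'p
    (fun l hl hdl ↦ G.hsm l hl (hdl.trans (hm1'd.trans hm1R))) (by
      have h1 : (R : ℝ) ^ (1 / 30 : ℝ) * (m1' : ℝ) ≤ (R : ℝ) ^ (2 / 3 + 2 * eta) := by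
        refine le_trans ?_ G.m_upper
        have h2 : (r0 : ℝ) * m1' ≤ ((m2 * m1 : ℕ) : ℝ) := by
          have h3 : r0 * m1' ≤ m2 * m1 := by
            rw [← hm1']
            apply Nat.le_mul_of_pos_left
            rcases G.hm2 with h | h <;> omega
          exact_mod_cast h3
        refine le_trans ?_ h2
        gcongr
      have h24 : 0 < (R : ℝ) ^ (1 / 30 : ℝ) := rp_pos ht _
      have h5 : (m1' : ℝ) ≤ (R : ℝ) ^ (64 / 100 : ℝ) := by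
        refine le_of_mul_le_mul_left (h1.trans ?_) h24
        rw [rp_mul ht]
        apply rp_le ht
        rw [he']; norm_num
      calc (m1' : ℝ) ^ 2 ≤ ((R : ℝ) ^ (64 / 100 : ℝ)) ^ 2 := by gcongr
        _ ≤ ((R : ℝ) ^ (4 / 25 : ℝ)) ^ (6 + 2) := by
            rw [rp_pow ht, rp_pow ht]
            apply rp_le ht
            norm_num)
  refine ⟨r0, r, r', hr2, hr1, hr3, hr2', ?_, hr3', hr01, hr02, hcn.coprime_dvd_left hr0d⟩
  rw [hr1', ← hm1']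

/-- the bound for a fixed part of the modulus. -/
theorem perK (ε : ℝ) (hε : 0 < ε) : ∃ C : ℝ, 0 < C ∧ ∀ {R p q m1 m2 : ℕ} (_ : Gl R p q m1 m2)
    (χ : DirichletCharacter ℂ (24 * p)) (k0 : ℕ), 0 < k0 → 24 * p * q ∣ k0 →
    k0.primeFactors ⊆ (6 * (p * q * (m2 * m1))).primeFactors → ∀ y s : ℝ,
    y ∈ Set.Ico (1 / ((m2 * m1 : ℕ) : ℝ)) (2 / ((m2 * m1 : ℕ) : ℝ)) →
    ‖∑ a ∈ (Icc 1 (⌊Real.sqrt 2 * ((m2 * m1 : ℕ) : ℝ)⌋₊ / k0)).filter
        (fun a : ℕ ↦ a.Coprime (6 * (p * q * (m2 * m1)))),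
      K.kTot (m2 * m1) (K.mS (24 * p) q χ) (a * k0) / ((a * k0 : ℕ) : ℂ) *
        psW (m2 * m1) y s ((a * k0 : ℕ) : ℝ)‖ ≤ C * (R : ℝ) ^ ε := by
  obtain ⟨C1, hC1, hF⟩ := fixK ε hε
  obtain ⟨C2, hC2, hT⟩ := triv_use ε hε
  refine ⟨C1 + C2, by positivity, ?_⟩
  intro R p q m1 m2 G χ k0 hk0 hk0d hk0p y s hy
  have ht := G.one_le
  have he : (0 : ℝ) < eta := by unfold eta; positivity
  have he' : eta = 7 / 10 ^ 9 := rfl
  have hq0 := G.q_pos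
  have hm0 := G.m_pos
  have hp0 := G.hp.pos
  have : NeZero (24 * p) := ⟨by omega⟩
  have hqR : q ∣ R := by rw [G.hRq]; exact dvd_mul_right _ _
  have hsqq : Squarefree q := G.hR.squarefree_of_dvd hqR
  have hqk0 : q ∣ k0 := (dvd_mul_left q (24 * p)).trans hk0d
  obtain ⟨k1, k2, e0, hk1, hk2, h12, hk1q, hg2⟩ := split_q hsqq hqk0 hk0
  subst e0
  set g := q / k1 with hg
  have hkg : k1 * g = q := Nat.mul_div_cancel' hk1q
  have hg0 : 0 < g := by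
    rcases Nat.eq_zero_or_pos g with h | h
    · rw [h, mul_zero] at hkg; omega
    · exact h
  have hq2 : q.Coprime 2 := G.hqc.coprime_dvd_right ⟨3 * p, by ring⟩
  have hq24 : q.Coprime (24 * p) := by
    have h4 : q.Coprime (2 ^ 2) := hq2.pow_right 2
    have : 24 * p = 2 ^ 2 * (6 * p) := by ring
    rw [this]
    exact h4.mul_right G.hqc
  have hqodd : Odd q := (Nat.coprime_two_right).1 hq2
  have hk1odd : Odd k1 := Odd.of_dvd_nat hqodd hk1q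
  have hmg : (m2 * m1).Coprime g := (G.qm_coprime.coprime_dvd_left ⟨k1, by rw [← hkg]; ring⟩).symm
  have hmk1 : (m2 * m1).Coprime k1 := (G.qm_coprime.coprime_dvd_left hk1q).symm
  have h4 : 4 ∣ 24 * p := ⟨6 * p, by ring⟩
  obtain ⟨V, hVper, hVb, hVeq⟩ := kTot_factor χ h4 hq0 hsqq hqodd hq24 (m2 * m1) k1 k2 hk1q hk1 hk2
    h12 hk0d hg2 hmg
  -- the cofactor
  obtain ⟨e, hee⟩ := hk0d
  have hk2e : k2 = 24 * p * g * e := by
    apply Nat.eq_of_mul_eq_mul_left hk1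
    rw [hee, ← hkg]; ring
  have he0 : 0 < e := by
    rcases Nat.eq_zero_or_pos e with h | h
    · rw [h, mul_zero] at hk2e; omega
    · exact h
  have hge : g ≤ e := by
    apply Nat.le_of_dvd he0
    have h1 : g * g ∣ g * (24 * p * e) := by
      have : g * (24 * p * e) = k2 := by rw [hk2e]; ring
      rw [this, ← sq]; exact hg2
    have h2 : g ∣ 24 * p * e := Nat.dvd_of_mul_dvd_mul_left hg0 h1
    have h3 : g.Coprime (24 * p) := hq24.coprime_dvd_left ⟨k1, by rw [← hkg]; ring⟩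
    exact h3.dvd_of_dvd_mul_left h2
  have h4k2 : 4 ∣ k2 := ⟨6 * p * g * e, by rw [hk2e]; ring⟩
  have h2k2 : 2 ∣ k2 := (by norm_num : 2 ∣ 4).trans h4k2
  set X : ℕ := ⌊Real.sqrt 2 * ((m2 * m1 : ℕ) : ℝ)⌋₊ / (k1 * k2) with hX
  have hmR : (0 : ℝ) < ((m2 * m1 : ℕ) : ℝ) := by exact_mod_cast hm0
  have hXqe : (X : ℝ) * (q * e) ≤ ((m2 * m1 : ℕ) : ℝ) := by
    have hs2' : Real.sqrt 2 ≤ 2 := by
      rw [Real.sqrt_le_left (by norm_num)]; norm_num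
    have h1 : ((X : ℕ) : ℝ) * ((k1 * k2 : ℕ) : ℝ) ≤ 2 * ((m2 * m1 : ℕ) : ℝ) := by
      have h2 : X * (k1 * k2) ≤ ⌊Real.sqrt 2 * ((m2 * m1 : ℕ) : ℝ)⌋₊ := Nat.div_mul_le_self _ _
      calc ((X : ℕ) : ℝ) * ((k1 * k2 : ℕ) : ℝ) ≤
            ((⌊Real.sqrt 2 * ((m2 * m1 : ℕ) : ℝ)⌋₊ : ℕ) : ℝ) := by exact_mod_cast h2
        _ ≤ Real.sqrt 2 * ((m2 * m1 : ℕ) : ℝ) := Nat.floor_le (by positivity)
        _ ≤ _ := by gcongr
    have h3 : ((k1 * k2 : ℕ) : ℝ) = 24 * p * (q * e) := by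
      rw [hee]; push_cast; ring
    rw [h3] at h1
    have hpR : (1 : ℝ) ≤ p := by exact_mod_cast hp0
    have h5 : 0 ≤ (X : ℝ) * (q * e) := by positivity
    have h6 : (X : ℝ) * (24 * p * (q * e)) = 24 * (p * ((X : ℝ) * (q * e))) := by ring
    rw [h6] at h1
    nlinarith
  have hqRpos : (0 : ℝ) < q := by exact_mod_cast hq0
  have heR : (1 : ℝ) ≤ e := by exact_mod_cast he0
  have hk1R : (0 : ℝ) < k1 := by exact_mod_cast hk1
  have hgR : (0 : ℝ) < g := by exact_mod_cast hg0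
  have hkgR : (k1 : ℝ) * g = q := by exact_mod_cast hkg
  have h6pos : 0 < (R : ℝ) ^ (6 * eta) := rp_pos ht _
  have hXe : (X : ℝ) * e ≤ (R : ℝ) ^ (6 * eta) * (k1 * g) := by
    have h1 := hXqe.trans G.m_le
    have h2 : (q : ℝ) * ((X : ℝ) * e) ≤ q * ((R : ℝ) ^ (6 * eta) * (k1 * g)) := by
      rw [hkgR]
      calc (q : ℝ) * ((X : ℝ) * e) = (X : ℝ) * (q * e) := by ring
        _ ≤ _ := h1
        _ = _ := by ring
    exact le_of_mul_le_mul_left h2 hqRpos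
  have hX0 : (0 : ℝ) ≤ X := Nat.cast_nonneg _
  have hq1R : (1 : ℝ) ≤ q := by exact_mod_cast hq0
  have hXm : (X : ℝ) ≤ ((m2 * m1 : ℕ) : ℝ) := by
    refine le_trans ?_ hXqe
    nlinarith [mul_le_mul hq1R heR zero_le_one (by linarith : (0 : ℝ) ≤ q)]
  have hX2R : (X : ℝ) ≤ 2 * R := by
    have := G.m_le_R
    linarith
  have hk1R' : (k1 : ℝ) ≤ R := by
    have : k1 ∣ R := hk1q.trans hqR
    exact_mod_cast Nat.le_of_dvd G.R_pos this
  -- rewriting the sum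
  have hcop_iff : ∀ a : ℕ, a.Coprime (6 * (p * q * (m2 * m1))) ↔
      (a.Coprime (k1 * k2) ∧ a.Coprime (m2 * m1)) := by
    intro a
    constructor
    · intro ha
      refine ⟨?_, ha.coprime_dvd_right ⟨6 * (p * q), by ring⟩⟩
      by_contra hnc
      obtain ⟨l, hl, h3, h5⟩ := Nat.Prime.not_coprime_iff_dvd.1 hnc
      have h6 : l ∈ (k1 * k2).primeFactors :=
        Nat.mem_primeFactors.2 ⟨hl, h5, (Nat.mul_pos hk1 hk2).ne'⟩
      have h7 : l ∣ 6 * (p * q * (m2 * m1)) := Nat.dvd_of_mem_primeFactors (hk0p h6)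
      exact Nat.not_coprime_of_dvd_of_dvd hl.one_lt h3 h7 ha
    · rintro ⟨h1, h2⟩
      have h3 : a.Coprime (6 * (p * q)) := h1.coprime_dvd_right ⟨4 * e, by rw [hee]; ring⟩
      have : 6 * (p * q * (m2 * m1)) = 6 * (p * q) * (m2 * m1) := by ring
      rw [this]
      exact h3.mul_right h2
  set T : ℕ → ℂ := fun a ↦ salS a ((m2 * m1 : ℕ) : ℤ) ((k1 * k2 : ℕ) : ℤ) *
      kloo k1 ((m2 * m1 : ℕ) : ℤ) ((a * k2 : ℕ) : ℤ) * V a /
          ((a * (k1 * k2) : ℕ) : ℂ) * psW (m2 * m1) y s ((a * (k1 * k2) : ℕ) : ℝ) with hTdef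
  have hsum : ∑ a ∈ (Icc 1 X).filter (fun a : ℕ ↦ a.Coprime (6 * (p * q * (m2 * m1)))),
      K.kTot (m2 * m1) (K.mS (24 * p) q χ) (a * (k1 * k2)) / ((a * (k1 * k2) : ℕ) : ℂ) *
        psW (m2 * m1) y s ((a * (k1 * k2) : ℕ) : ℝ) =
      ∑ a ∈ (Icc 1 X).filter (fun a ↦ a.Coprime (k1 * k2) ∧ a.Coprime (m2 * m1)), T a := by
    rw [Finset.filter_congr (fun a _ ↦ hcop_iff a)]
    refine Finset.sum_congr rfl fun a ha ↦ ?_
    rw [mem_filter, mem_Icc] at ha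
    rw [hVeq a (by omega) ha.2.1 ha.2.2]
  rw [hsum]
  have hRε : 0 < (R : ℝ) ^ ε := rp_pos ht _
  rcases le_or_gt ((R : ℝ) ^ (6 * eta)) (e : ℝ) with hcase | hcase
  · -- the trivial bound
    have hXg : (X : ℝ) ≤ k1 * g := by
      have h1 : (e : ℝ) * X ≤ e * (k1 * g) := by
        calc (e : ℝ) * X = (X : ℝ) * e := by ring
          _ ≤ _ := hXe
          _ ≤ _ := by gcongr
      exact le_of_mul_le_mul_left h1 (by linarith)
    have h1 := hT ht k1 k2 (m2 * m1) g X V hk1 hk2 hm0 hg0 (hsqq.squarefree_of_dvd hk1q) h2k2 h12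
      hmk1 hVb hX2R hk1R' hXg y s hy
    calc ‖∑ a ∈ (Icc 1 X).filter (fun a ↦ a.Coprime (k1 * k2) ∧ a.Coprime (m2 * m1)), T a‖
        ≤ ∑ a ∈ (Icc 1 X).filter (fun a ↦ a.Coprime (k1 * k2) ∧ a.Coprime (m2 * m1)), ‖T a‖ :=
          norm_sum_le _ _
      _ ≤ C2 * (R : ℝ) ^ ε := h1
      _ ≤ _ := by nlinarith
  · -- the main case
    have hXk : (X : ℝ) ≤ (R : ℝ) ^ (6 * eta) * k1 := by
      have h1 : (e : ℝ) * X ≤ e * ((R : ℝ) ^ (6 * eta) * k1) := by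
        have h2 : (g : ℝ) ≤ e := by exact_mod_cast hge
        calc (e : ℝ) * X = (X : ℝ) * e := by ring
          _ ≤ (R : ℝ) ^ (6 * eta) * (k1 * g) := hXe
          _ ≤ (R : ℝ) ^ (6 * eta) * (k1 * e) := by gcongr
          _ = _ := by ring
      exact le_of_mul_le_mul_left h1 (by linarith)
    have hgR6 : (g : ℝ) ≤ (R : ℝ) ^ (6 * eta) := by
      have h2 : (g : ℝ) ≤ e := by exact_mod_cast hge
      linarith
    have hD : ((8 * k2 : ℕ) : ℝ) ≤ (R : ℝ) ^ (14 * eta) := by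
      have h1 : ((8 * k2 : ℕ) : ℝ) = 192 * p * g * e := by
        rw [hk2e]; push_cast; ring
      rw [h1]
      calc (192 : ℝ) * p * g * e ≤ (R : ℝ) ^ eta * (R : ℝ) ^ eta * (R : ℝ) ^ (6 * eta) *
            (R : ℝ) ^ (6 * eta) := by
            have := G.hbig
            have := G.hpt
            gcongr
        _ = (R : ℝ) ^ (14 * eta) := by
            rw [rp_mul ht, rp_mul ht, rp_mul ht]; congr 1; ring
    obtain ⟨r0, r, r', f1, f2, f3, f4, f5, f6, f7, f8, f9⟩ := choose_chunks G hk1q hk1 hk2 hD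
    have hkq : k1 ≤ q := Nat.le_of_dvd hq0 hk1q
    have hHyp : Hyp (R : ℝ) q m1 m2 k1 k2 r0 X r r' := by
      refine ⟨ht, hq0, hk1odd, hsqq.squarefree_of_dvd hk1q, hk2, h4k2, h12, G.hm1,
        G.hR.squarefree_of_dvd ?_, G.hm2, hmk1.symm, f1, f2, f3, f4, f5, f6, f7, f8, f9, hD, ?_,
        G.hq1, hkq, hXk, ?_⟩
      · rw [G.hRq]; exact ((dvd_mul_left m1 m2)).mul_left q
      · -- X ≤ t^{1/3+4η}
        have h1 : (R : ℝ) ^ (1 / 3 - 2 * eta) * (X : ℝ) ≤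
            (R : ℝ) ^ (1 / 3 - 2 * eta) * (R : ℝ) ^ (1 / 3 + 4 * eta) := by
          rw [rp_mul ht]
          have e1 : 1 / 3 - 2 * eta + (1 / 3 + 4 * eta) = 2 / 3 + 2 * eta := by ring
          rw [e1]
          refine le_trans ?_ G.m_upper
          refine le_trans ?_ hXqe
          have h2 := G.hq1
          calc (R : ℝ) ^ (1 / 3 - 2 * eta) * (X : ℝ) ≤ q * X := by gcongr
            _ = (X : ℝ) * (q * 1) := by ring
            _ ≤ (X : ℝ) * (q * e) := by gcongr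
        exact le_of_mul_le_mul_left h1 (rp_pos ht _)
      · -- m ≤ t^{6η} k0 q
        refine G.m_le.trans ?_
        have h1 : q ≤ k1 * k2 := Nat.le_of_dvd hk0 hqk0
        have h2 : (q : ℝ) ≤ ((k1 * k2 : ℕ) : ℝ) := by exact_mod_cast h1
        gcongr
    have hVk : ∀ a, ‖V a‖ ≤ k2 := by
      intro a
      refine (hVb a).trans ?_
      have h1 : (g.divisors.card : ℝ) ≤ g := by exact_mod_cast card_div_le_self g
      have hk2R : (0 : ℝ) ≤ k2 := Nat.cast_nonneg _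
      calc (k2 : ℝ) / g * g.divisors.card ≤ (k2 : ℝ) / g * g := by gcongr
        _ = k2 := by field_simp
    have hA := hF hHyp V hVper hVk y s hy
    have hXg' : ((min q X : ℕ) : ℝ) ≤ k1 * g := by
      rw [hkgR]
      exact_mod_cast min_le_left q X
    have hX2' : ((min q X : ℕ) : ℝ) ≤ 2 * R := by
      refine le_trans ?_ hX2R
      exact_mod_cast min_le_right q X
    have hB := hT ht k1 k2 (m2 * m1) g (min q X) V hk1 hk2 hm0 hg0
      (hsqq.squarefree_of_dvd hk1q) h2k2 h12 hmk1 hVb hX2' hk1R' hXg' y s hy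
    have hset : (Icc 1 X).filter (fun a ↦ a.Coprime (k1 * k2) ∧ a.Coprime (m2 * m1)) =
        (Icc 1 (min q X)).filter (fun a ↦ a.Coprime (k1 * k2) ∧ a.Coprime (m2 * m1)) ∪
        (Ioc q X).filter (fun c ↦ c.Coprime (k1 * k2 * (m2 * m1))) := by
      ext a
      simp only [mem_union, mem_filter, mem_Icc, mem_Ioc, Nat.coprime_mul_iff_right, le_min_iff]
      constructor
      · rintro ⟨⟨h1, h2⟩, h3⟩
        rcases Nat.lt_or_ge q a with h5 | h5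
        · right; exact ⟨⟨h5, h2⟩, h3⟩
        · left; exact ⟨⟨h1, h5, h2⟩, h3⟩
      · rintro (⟨⟨h1, h2, h3⟩, h5⟩ | ⟨⟨h1, h2⟩, h3⟩)
        · exact ⟨⟨h1, h3⟩, h5⟩
        · exact ⟨⟨by omega, h2⟩, h3⟩
    have hdisj : Disjoint
        ((Icc 1 (min q X)).filter (fun a ↦ a.Coprime (k1 * k2) ∧ a.Coprime (m2 * m1)))
        ((Ioc q X).filter (fun c ↦ c.Coprime (k1 * k2 * (m2 * m1)))) := by
      rw [Finset.disjoint_left]
      intro a ha hb
      rw [mem_filter, mem_Icc, le_min_iff] at ha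
      rw [mem_filter, mem_Ioc] at hb
      omega
    rw [hset, Finset.sum_union hdisj]
    calc _ ≤ _ := norm_add_le _ _
      _ ≤ C2 * (R : ℝ) ^ ε + C1 * (R : ℝ) ^ ε := by
          apply add_le_add _ hA
          exact (norm_sum_le _ _).trans hB
      _ = _ := by ring

end

end Pool.Agent.Work.MP_af11aa_nt.W2
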